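import Mathlib

set_option autoImplicit false

/-!
# Regrouping and discrete Fourier transform
-/

namespace Pool.Agent.H86.Waring

open Finset

lemma sum_three (K : ℕ) (f : ℕ → ℂ) :
    ∑ ν ∈ range (3 * K), f ν = ∑ i ∈ range K, (f i + f (K + i) + f (2 * K + i)) := by
  have h1 : 3 * K = K + K + K := by ring
  have h2 : 2 * K = K + K := by ring
  rw [h1, Finset.sum_range_add, Finset.sum_range_add, h2, ← Finset.sum_add_distrib,
    ← Finset.sum_add_distrib]

lemma sum_three_pow (K : ℕ) (A : ℕ → ℂ) (z : ℂ) (hz : z ^ K = 1) :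
    ∑ ν ∈ range (3 * K), A ν * z ^ ν
      = ∑ i ∈ range K, (A i + A (K + i) + A (2 * K + i)) * z ^ i := by
  rw [sum_three]
  apply Finset.sum_congr rfl
  intro i _
  rw [pow_add, pow_add, mul_comm 2 K, pow_mul, hz]
  ring

/-- the class sums -/
def cls (K : ℕ) (A : ℕ → ℂ) (i : ℕ) : ℂ := A i + A (K + i) + A (2 * K + i)

lemma reflect_sum (K : ℕ) (hK : 0 < K) (B : ℕ → ℂ) (z w : ℂ) (hz : z ^ K = 1) (hzw : z * w = 1) :
    ∑ i ∈ range K, B i * w ^ i = ∑ i ∈ range K, B ((K - i) % K) * z ^ i := by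
  obtain ⟨k, rfl⟩ : ∃ k, K = k + 1 := ⟨K - 1, by omega⟩
  rw [Finset.sum_range_succ', Finset.sum_range_succ']
  congr 1
  · rw [← Finset.sum_range_reflect]
    apply Finset.sum_congr rfl
    intro i hi
    rw [mem_range] at hi
    have h1 : k - 1 - i + 1 = k - i := by omega
    have h2 : (k + 1 - (i + 1)) % (k + 1) = k - i := by
      rw [Nat.mod_eq_of_lt (by omega)]
      omega
    rw [h1, h2]
    congr 1
    have h3 : z ^ (k - i) * w ^ (k - i) = 1 := by rw [← mul_pow, hzw, one_pow]
    have h4 : z ^ (k - i) * z ^ (i + 1) = 1 := by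
      rw [← pow_add]
      have : k - i + (i + 1) = k + 1 := by omega
      rw [this, hz]
    have h5 : z ^ (k - i) ≠ 0 := left_ne_zero_of_mul_eq_one h3
    exact mul_left_cancel₀ h5 (h3.trans h4.symm)
  · simp

/-- if all Fourier sums vanish then all class sums vanish -/
lemma dft (K : ℕ) (hK : 0 < K) (ω ω' : ℂ) (hω : IsPrimitiveRoot ω K) (hωω' : ω * ω' = 1)
    (A B : ℕ → ℂ)
    (h : ∀ j < K, ∑ ν ∈ range (3 * K), A ν * (ω ^ j) ^ ν + ∑ ν ∈ range (3 * K), B ν * (ω' ^ j) ^ ν
      = 0) (r : ℕ) (hr : r < K) : cls K A r + cls K B ((K - r) % K) = 0 := by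
  have hω1 : ω ^ K = 1 := hω.pow_eq_one
  have hω2 : ω' ^ K = 1 := by
    have : ω ^ K * ω' ^ K = 1 := by rw [← mul_pow, hωω', one_pow]
    rwa [hω1, one_mul] at this
  have hinj : Function.Injective (fun j : Fin K => ω ^ (j : ℕ)) := by
    intro i j hij
    exact Fin.ext (hω.pow_inj i.2 j.2 hij)
  have hv := Matrix.eq_zero_of_forall_index_sum_pow_mul_eq_zero
    (f := fun j : Fin K => ω ^ (j : ℕ))
    (v := fun i : Fin K => cls K A i + cls K B ((K - i) % K)) hinj ?_
  · exact congrFun hv ⟨r, hr⟩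
  · intro j
    have hj := h j j.2
    have z1 : (ω ^ (j : ℕ)) ^ K = 1 := by rw [← pow_mul, mul_comm, pow_mul, hω1, one_pow]
    have z2 : (ω' ^ (j : ℕ)) ^ K = 1 := by rw [← pow_mul, mul_comm, pow_mul, hω2, one_pow]
    have z3 : ω ^ (j : ℕ) * ω' ^ (j : ℕ) = 1 := by rw [← mul_pow, hωω', one_pow]
    rw [sum_three_pow K A _ z1, sum_three_pow K B _ z2,
      reflect_sum K hK (fun i => B i + B (K + i) + B (2 * K + i)) _ _ z1 z3,
      ← Finset.sum_add_distrib] at hj
    rw [Finset.sum_range] at hj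
    rw [← hj]
    apply Finset.sum_congr rfl
    intro i _
    simp only [cls]
    ring

/-- summation of the Fourier sums -/
lemma dft_sum (K : ℕ) (hK : 0 < K) (ω ω' : ℂ) (hω : IsPrimitiveRoot ω K) (hωω' : ω * ω' = 1)
    (A B : ℕ → ℂ) :
    ∑ j ∈ range K, (∑ ν ∈ range (3 * K), A ν * (ω ^ j) ^ ν
      + ∑ ν ∈ range (3 * K), B ν * (ω' ^ j) ^ ν) = (K : ℂ) * (cls K A 0 + cls K B 0) := by
  have hω1 : ω ^ K = 1 := hω.pow_eq_one
  have hω2 : ω' ^ K = 1 := by
    have : ω ^ K * ω' ^ K = 1 := by rw [← mul_pow, hωω', one_pow]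
    rwa [hω1, one_mul] at this
  have h1 : ∀ j ∈ range K, ∑ ν ∈ range (3 * K), A ν * (ω ^ j) ^ ν
      + ∑ ν ∈ range (3 * K), B ν * (ω' ^ j) ^ ν
      = ∑ i ∈ range K, (cls K A i + cls K B ((K - i) % K)) * (ω ^ j) ^ i := by
    intro j _
    have z1 : (ω ^ j) ^ K = 1 := by rw [← pow_mul, mul_comm, pow_mul, hω1, one_pow]
    have z2 : (ω' ^ j) ^ K = 1 := by rw [← pow_mul, mul_comm, pow_mul, hω2, one_pow]
    have z3 : ω ^ j * ω' ^ j = 1 := by rw [← mul_pow, hωω', one_pow]
    rw [sum_three_pow K A _ z1, sum_three_pow K B _ z2,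
      reflect_sum K hK (fun i => B i + B (K + i) + B (2 * K + i)) _ _ z1 z3,
      ← Finset.sum_add_distrib]
    apply Finset.sum_congr rfl
    intro i _
    simp only [cls]
    ring
  rw [Finset.sum_congr rfl h1, Finset.sum_comm]
  rw [Finset.sum_eq_single 0]
  · simp
    ring
  · intro i hi hi0
    rw [← Finset.mul_sum]
    have h2 : ∑ j ∈ range K, (ω ^ j) ^ i = 0 := by
      have h3 : ∀ j ∈ range K, (ω ^ j) ^ i = (ω ^ i) ^ j := by
        intro j _
        rw [← pow_mul, ← pow_mul, mul_comm]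
      rw [Finset.sum_congr rfl h3]
      have h4 : ω ^ i ≠ 1 := by
        intro h5
        have h6 := hω.dvd_of_pow_eq_one i h5
        rw [mem_range] at hi
        exact hi0 (Nat.eq_zero_of_dvd_of_lt h6 hi)
      rw [geom_sum_eq h4, ← pow_mul, mul_comm i K, pow_mul, hω1, one_pow, sub_self, zero_div]
    rw [h2, mul_zero]
  · intro h
    exact absurd (mem_range.2 hK) h

/-- regrouping a double sum according to the difference of the indices -/
lemma regroup (N M : ℕ) (hNM : N < M) (f : ℕ → ℕ → ℂ) (h1 : ∀ u v, N < u → f u v = 0)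
    (h2 : ∀ u v, N < v → f u v = 0) :
    ∑ u ∈ range (N + 1), ∑ v ∈ range (N + 1), f u v
      = ∑ ν ∈ range M, ∑ i ∈ range (N + 1), f i (ν + i)
        + ∑ ν ∈ range M, (if ν = 0 then 0 else ∑ i ∈ range (N + 1), f (ν + i) i) := by
  have e1 : ∑ ν ∈ range M, ∑ i ∈ range (N + 1), f i (ν + i)
      = ∑ u ∈ range (N + 1), ∑ v ∈ range (N + 1), if u ≤ v then f u v else 0 := by
    rw [Finset.sum_comm]
    apply Finset.sum_congr rfl
    intro u hu
    rw [mem_range] at hu
    have a1 : ∑ ν ∈ range M, f u (ν + u) = ∑ v ∈ Ico u (u + M), f u v := by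
      rw [Finset.sum_Ico_eq_sum_range]
      have : u + M - u = M := by omega
      rw [this]
      exact Finset.sum_congr rfl (fun x _ => by rw [add_comm])
    rw [a1, ← Finset.sum_filter]
    symm
    apply Finset.sum_subset
    · intro v hv
      rw [Finset.mem_filter, mem_range] at hv
      rw [Finset.mem_Ico]
      omega
    · intro v hv hv2
      rw [Finset.mem_Ico] at hv
      rw [Finset.mem_filter, mem_range] at hv2
      exact h2 u v (by omega)
  have e2 : ∑ ν ∈ range M, (if ν = 0 then 0 else ∑ i ∈ range (N + 1), f (ν + i) i)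
      = ∑ u ∈ range (N + 1), ∑ v ∈ range (N + 1), if u ≤ v then 0 else f u v := by
    have b0 : ∀ ν ∈ range M, (if ν = 0 then 0 else ∑ i ∈ range (N + 1), f (ν + i) i)
        = ∑ i ∈ range (N + 1), if ν = 0 then 0 else f (ν + i) i := by
      intro ν _
      split_ifs with h
      · simp
      · rfl
    rw [Finset.sum_congr rfl b0, Finset.sum_comm]
    rw [Finset.sum_comm (s := range (N + 1)) (t := range (N + 1))]
    apply Finset.sum_congr rfl
    intro v hv
    rw [mem_range] at hv
    have a1 : (∑ ν ∈ range M, if ν = 0 then 0 else f (ν + v) v)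
        = ∑ u ∈ Ico v (v + M), if u ≤ v then 0 else f u v := by
      rw [Finset.sum_Ico_eq_sum_range]
      have : v + M - v = M := by omega
      rw [this]
      apply Finset.sum_congr rfl
      intro x _
      rw [add_comm v x]
      by_cases hx : x = 0
      · simp [hx]
      · rw [if_neg hx, if_neg (by omega)]
    rw [a1]
    have a2 : (∑ u ∈ range (N + 1), if u ≤ v then 0 else f u v)
        = ∑ u ∈ (range (N + 1)).filter (fun u => v ≤ u), if u ≤ v then 0 else f u v := by
      rw [Finset.sum_filter]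
      apply Finset.sum_congr rfl
      intro u _
      by_cases hu : v ≤ u
      · rw [if_pos hu]
      · rw [if_neg hu, if_pos (by omega)]
    rw [a2]
    symm
    apply Finset.sum_subset
    · intro u hu
      rw [Finset.mem_filter, mem_range] at hu
      rw [Finset.mem_Ico]
      omega
    · intro u hu hu2
      rw [Finset.mem_Ico] at hu
      rw [Finset.mem_filter, mem_range] at hu2
      split_ifs with h
      · rfl
      · exact h1 u v (by omega)
  rw [e1, e2, ← Finset.sum_add_distrib]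
  apply Finset.sum_congr rfl
  intro u _
  rw [← Finset.sum_add_distrib]
  apply Finset.sum_congr rfl
  intro v _
  split_ifs <;> simp

end Pool.Agent.H86.Waring
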