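import Pool.Agent.H86.Waring.Basic
import Pool.Agent.H86.Waring.DFT

set_option autoImplicit false

/-!
# Expansions of linear functionals on powers of quadratics
-/

namespace Pool.Agent.H86.Waring

open Finset Polynomial

/-- the quadratic polynomials we use -/
noncomputable def Q (a b : ℂ) : ℂ[X] := (C a + X) * (1 + C b * X)

lemma pow1 (N : ℕ) (a : ℂ) : (C a + X : ℂ[X]) ^ N
    = ∑ u ∈ range (N + 1), C ((N.choose u : ℂ) * a ^ u) * X ^ (N - u) := by
  rw [add_pow]
  apply Finset.sum_congr rfl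
  intro u _
  simp only [C_mul, C_pow, map_natCast]
  ring

lemma pow2 (N : ℕ) (b : ℂ) : (1 + C b * X : ℂ[X]) ^ N
    = ∑ v ∈ range (N + 1), C ((N.choose v : ℂ) * b ^ v) * X ^ v := by
  rw [add_comm, add_pow]
  apply Finset.sum_congr rfl
  intro u _
  simp only [C_mul, C_pow, map_natCast, one_pow, mul_one]
  ring

lemma pow2' (N : ℕ) (b : ℂ) : (N : ℂ[X]) * (C b * X) * (1 + C b * X : ℂ[X]) ^ (N - 1)
    = ∑ v ∈ range (N + 1), C ((v : ℂ) * (N.choose v : ℂ) * b ^ v) * X ^ v := by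
  have h := congrArg (fun p : ℂ[X] => X * derivative p) (pow2 N b)
  simp only [derivative_sum, derivative_pow, derivative_add, derivative_one, derivative_mul,
    derivative_C, derivative_X, zero_mul, zero_add, mul_one, Finset.mul_sum] at h
  have h2 : (N : ℂ[X]) * (C b * X) * (1 + C b * X : ℂ[X]) ^ (N - 1)
      = X * (C (N : ℂ) * (1 + C b * X) ^ (N - 1) * C b) := by
    simp only [map_natCast]
    ring
  rw [h2, h]
  apply Finset.sum_congr rfl
  intro v _
  rcases Nat.eq_zero_or_pos v with h0 | h0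
  · simp [h0]
  · have h3 : (X : ℂ[X]) ^ v = X * X ^ (v - 1) := by
      rw [← pow_succ']
      congr 1
      omega
    rw [h3]
    simp only [C_mul, C_pow, map_natCast]
    ring

lemma pow1' (N : ℕ) (a : ℂ) : (N : ℂ[X]) * C a * (C a + X : ℂ[X]) ^ (N - 1)
    = ∑ u ∈ range (N + 1), C ((u : ℂ) * (N.choose u : ℂ) * a ^ u) * X ^ (N - u) := by
  rcases Nat.eq_zero_or_pos N with hN | hN
  · subst hN
    simp
  have h := congrArg (fun p : ℂ[X] => X * derivative p) (pow1 N a)
  simp only [derivative_sum, derivative_pow, derivative_add, derivative_mul,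
    derivative_C, derivative_X, zero_mul, zero_add, mul_one, Finset.mul_sum] at h
  have h2 : (N : ℂ[X]) * C a * (C a + X : ℂ[X]) ^ (N - 1)
      = (N : ℂ[X]) * (C a + X) ^ N - X * (C (N : ℂ) * (C a + X) ^ (N - 1)) := by
    have h4 : (C a + X : ℂ[X]) ^ N = (C a + X) * (C a + X) ^ (N - 1) := by
      rw [← pow_succ']
      congr 1
      omega
    rw [h4]
    simp only [map_natCast]
    ring
  rw [h2, h, pow1, Finset.mul_sum, ← Finset.sum_sub_distrib]
  apply Finset.sum_congr rfl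
  intro u hu
  rw [mem_range] at hu
  rcases Nat.eq_zero_or_pos (N - u) with h0 | h0
  · have : u = N := by omega
    subst this
    simp [h0]
  · have h3 : (X : ℂ[X]) ^ (N - u) = X * X ^ (N - u - 1) := by
      rw [← pow_succ']
      congr 1
      omega
    have h5 : ((N - u : ℕ) : ℂ[X]) = (N : ℂ[X]) - u := by
      rw [Nat.cast_sub (by omega)]
    rw [h3]
    simp only [C_mul, C_pow, map_natCast, h5]
    ring

lemma expand (L : ℂ[X] →ₗ[ℂ] ℂ) (N M : ℕ) (hNM : N < M) (A B : ℕ → ℂ) (hA : ∀ u, N < u → A u = 0)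
    (hB : ∀ v, N < v → B v = 0) :
    L ((∑ u ∈ range (N + 1), C (A u) * X ^ (N - u)) * (∑ v ∈ range (N + 1), C (B v) * X ^ v))
      = ∑ ν ∈ range M, (∑ i ∈ range (N + 1), A i * B (ν + i)) * L (X ^ (N + ν))
        + ∑ ν ∈ range M, (if ν = 0 then 0 else
            (∑ i ∈ range (N + 1), A (ν + i) * B i) * L (X ^ (N - ν))) := by
  have h0 : L ((∑ u ∈ range (N + 1), C (A u) * X ^ (N - u))
      * (∑ v ∈ range (N + 1), C (B v) * X ^ v))
      = ∑ u ∈ range (N + 1), ∑ v ∈ range (N + 1), A u * B v * L (X ^ (N - u + v)) := by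
    rw [Finset.sum_mul_sum, map_sum]
    apply Finset.sum_congr rfl
    intro u _
    rw [map_sum]
    apply Finset.sum_congr rfl
    intro v _
    have h1 : C (A u) * X ^ (N - u) * (C (B v) * X ^ v) = (A u * B v) • (X : ℂ[X]) ^ (N - u + v) := by
      rw [smul_eq_C_mul, C_mul, pow_add]
      ring
    rw [h1, map_smul, smul_eq_mul]
  rw [h0, regroup N M hNM (fun u v => A u * B v * L (X ^ (N - u + v)))
    (fun u v hu => by simp [hA u hu]) (fun u v hv => by simp [hB v hv])]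
  congr 1
  · apply Finset.sum_congr rfl
    intro ν _
    rw [Finset.sum_mul]
    apply Finset.sum_congr rfl
    intro i hi
    rw [mem_range] at hi
    have : N - i + (ν + i) = N + ν := by omega
    rw [this]
  · apply Finset.sum_congr rfl
    intro ν _
    split_ifs with hν
    · rfl
    · rw [Finset.sum_mul]
      apply Finset.sum_congr rfl
      intro i hi
      rcases le_or_gt (ν + i) N with h | h
      · have : N - (ν + i) + i = N - ν := by omega
        rw [this]
      · simp [hA _ h]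

lemma S1 (N ν : ℕ) (a b : ℂ) :
    ∑ i ∈ range (N + 1), ((N.choose i : ℂ) * a ^ i) * ((N.choose (ν + i) : ℂ) * b ^ (ν + i))
      = (N.choose ν : ℂ) * (b ^ ν * F N ν (a * b)) := by
  unfold F
  rw [Finset.mul_sum, Finset.mul_sum]
  apply Finset.sum_congr rfl
  intro i _
  rw [← choose_mul_g, pow_add, mul_pow]
  ring

lemma S3 (N ν : ℕ) (a b : ℂ) :
    ∑ i ∈ range (N + 1), ((i : ℂ) * (N.choose i : ℂ) * a ^ i)
        * ((N.choose (ν + i) : ℂ) * b ^ (ν + i))
      = (N.choose ν : ℂ) * (b ^ ν * D N ν (a * b)) := by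
  unfold D
  rw [Finset.mul_sum, Finset.mul_sum]
  apply Finset.sum_congr rfl
  intro i _
  rw [← choose_mul_g, pow_add, mul_pow]
  ring

lemma S2 (N ν : ℕ) (a b : ℂ) :
    ∑ i ∈ range (N + 1), ((N.choose i : ℂ) * a ^ i)
        * (((ν + i : ℕ) : ℂ) * (N.choose (ν + i) : ℂ) * b ^ (ν + i))
      = (N.choose ν : ℂ) * (b ^ ν * ((ν : ℂ) * F N ν (a * b) + D N ν (a * b))) := by
  have h : (N.choose ν : ℂ) * (b ^ ν * ((ν : ℂ) * F N ν (a * b) + D N ν (a * b)))
      = (ν : ℂ) * ((N.choose ν : ℂ) * (b ^ ν * F N ν (a * b)))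
        + (N.choose ν : ℂ) * (b ^ ν * D N ν (a * b)) := by ring
  rw [h, ← S1, ← S3, Finset.mul_sum, ← Finset.sum_add_distrib]
  apply Finset.sum_congr rfl
  intro i _
  push_cast
  ring

lemma choose_zero' (N : ℕ) : ∀ u, N < u → (N.choose u : ℂ) = 0 := by
  intro u hu
  rw [Nat.choose_eq_zero_of_lt hu, Nat.cast_zero]

/-- high and low parts -/
noncomputable def hi (L : ℂ[X] →ₗ[ℂ] ℂ) (N : ℕ) (b : ℂ) (W : ℕ → ℂ) (ν : ℕ) : ℂ :=
  (N.choose ν : ℂ) * L (X ^ (N + ν)) * b ^ ν * W ν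

noncomputable def lo (L : ℂ[X] →ₗ[ℂ] ℂ) (N : ℕ) (a : ℂ) (W : ℕ → ℂ) (ν : ℕ) : ℂ :=
  if ν = 0 then 0 else (N.choose ν : ℂ) * L (X ^ (N - ν)) * a ^ ν * W ν

lemma LP (L : ℂ[X] →ₗ[ℂ] ℂ) (N M : ℕ) (hNM : N < M) (a b z w : ℂ) (hzw : z * w = 1) :
    L (Q (a * w) (b * z) ^ N)
      = ∑ ν ∈ range M, hi L N b (fun ν => F N ν (a * b)) ν * z ^ ν
        + ∑ ν ∈ range M, lo L N a (fun ν => F N ν (a * b)) ν * w ^ ν := by
  have hab : a * w * (b * z) = a * b := by linear_combination (a * b) * hzw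
  rw [Q, mul_pow, pow1, pow2, expand L N M hNM (fun u => (N.choose u : ℂ) * (a * w) ^ u)
    (fun v => (N.choose v : ℂ) * (b * z) ^ v) (fun u hu => by simp [choose_zero' N u hu])
    (fun u hu => by simp [choose_zero' N u hu])]
  congr 1
  · apply Finset.sum_congr rfl
    intro ν _
    rw [S1, hab, hi, mul_pow]
    ring
  · apply Finset.sum_congr rfl
    intro ν _
    have h1 : ∑ i ∈ range (N + 1), ((N.choose (ν + i) : ℂ) * (a * w) ^ (ν + i))
        * ((N.choose i : ℂ) * (b * z) ^ i)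
        = (N.choose ν : ℂ) * ((a * w) ^ ν * F N ν (a * b)) := by
      rw [← hab, mul_comm (a * w) (b * z), ← S1]
      exact Finset.sum_congr rfl (fun i _ => by ring)
    rw [h1, lo]
    split_ifs
    · simp
    · rw [mul_pow]
      ring

lemma LBp (L : ℂ[X] →ₗ[ℂ] ℂ) (N M : ℕ) (hNM : N < M) (a b z w : ℂ) (hzw : z * w = 1) :
    L ((C (a * w) + X) ^ N * ((N : ℂ[X]) * (C (b * z) * X) * (1 + C (b * z) * X) ^ (N - 1)))
      = ∑ ν ∈ range M, hi L N b (fun ν => (ν : ℂ) * F N ν (a * b) + D N ν (a * b)) ν * z ^ ν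
        + ∑ ν ∈ range M, lo L N a (fun ν => D N ν (a * b)) ν * w ^ ν := by
  have hab : a * w * (b * z) = a * b := by linear_combination (a * b) * hzw
  rw [pow1, pow2', expand L N M hNM (fun u => (N.choose u : ℂ) * (a * w) ^ u)
    (fun v => (v : ℂ) * (N.choose v : ℂ) * (b * z) ^ v)
    (fun u hu => by simp [choose_zero' N u hu])
    (fun u hu => by simp [choose_zero' N u hu])]
  congr 1
  · apply Finset.sum_congr rfl
    intro ν _
    rw [S2, hab, hi, mul_pow]
    ring
  · apply Finset.sum_congr rfl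
    intro ν _
    have h1 : ∑ i ∈ range (N + 1), ((N.choose (ν + i) : ℂ) * (a * w) ^ (ν + i))
        * ((i : ℂ) * (N.choose i : ℂ) * (b * z) ^ i)
        = (N.choose ν : ℂ) * ((a * w) ^ ν * D N ν (a * b)) := by
      rw [← hab, mul_comm (a * w) (b * z), ← S3]
      exact Finset.sum_congr rfl (fun i _ => by ring)
    rw [h1, lo]
    split_ifs
    · simp
    · rw [mul_pow]
      ring

lemma LBm (L : ℂ[X] →ₗ[ℂ] ℂ) (N M : ℕ) (hNM : N < M) (a b z w : ℂ) (hzw : z * w = 1) :
    L (((N : ℂ[X]) * C (a * w) * (C (a * w) + X) ^ (N - 1)) * (1 + C (b * z) * X) ^ N)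
      = ∑ ν ∈ range M, hi L N b (fun ν => D N ν (a * b)) ν * z ^ ν
        + ∑ ν ∈ range M, lo L N a (fun ν => (ν : ℂ) * F N ν (a * b) + D N ν (a * b)) ν
          * w ^ ν := by
  have hab : a * w * (b * z) = a * b := by linear_combination (a * b) * hzw
  rw [pow1', pow2, expand L N M hNM (fun u => (u : ℂ) * (N.choose u : ℂ) * (a * w) ^ u)
    (fun v => (N.choose v : ℂ) * (b * z) ^ v)
    (fun u hu => by simp [choose_zero' N u hu])
    (fun u hu => by simp [choose_zero' N u hu])]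
  congr 1
  · apply Finset.sum_congr rfl
    intro ν _
    rw [S3, hab, hi, mul_pow]
    ring
  · apply Finset.sum_congr rfl
    intro ν _
    have h1 : ∑ i ∈ range (N + 1), (((ν + i : ℕ) : ℂ) * (N.choose (ν + i) : ℂ)
        * (a * w) ^ (ν + i)) * ((N.choose i : ℂ) * (b * z) ^ i)
        = (N.choose ν : ℂ) * ((a * w) ^ ν * ((ν : ℂ) * F N ν (a * b) + D N ν (a * b))) := by
      rw [← hab, mul_comm (a * w) (b * z), ← S2]
      exact Finset.sum_congr rfl (fun i _ => by ring)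
    rw [h1, lo]
    split_ifs
    · simp
    · rw [mul_pow]
      ring

/-- the tangent conditions at all rotated copies of a quadratic, class by class -/
lemma class_conditions (L : ℂ[X] →ₗ[ℂ] ℂ) (N K : ℕ) (hN : 1 ≤ N) (hK : 0 < K) (hNK : N < 3 * K)
    (ω ω' : ℂ) (hω : IsPrimitiveRoot ω K) (hωω' : ω * ω' = 1) (a b : ℂ)
    (hL : ∀ j < K, ∀ r : ℂ[X], r.natDegree ≤ 2 →
      L (Q (a * ω' ^ j) (b * ω ^ j) ^ (N - 1) * r) = 0) (r : ℕ) (hr : r < K) :
    (cls K (hi L N b (fun ν => F N ν (a * b))) r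
      + cls K (lo L N a (fun ν => F N ν (a * b))) ((K - r) % K) = 0) ∧
    (cls K (hi L N b (fun ν => (ν : ℂ) * F N ν (a * b) + D N ν (a * b))) r
      + cls K (lo L N a (fun ν => D N ν (a * b))) ((K - r) % K) = 0) ∧
    (cls K (hi L N b (fun ν => D N ν (a * b))) r
      + cls K (lo L N a (fun ν => (ν : ℂ) * F N ν (a * b) + D N ν (a * b))) ((K - r) % K) = 0) := by
  have hz : ∀ j : ℕ, ω ^ j * ω' ^ j = 1 := fun j => by rw [← mul_pow, hωω', one_pow]
  have hQ : ∀ u v : ℂ, Q u v ^ N = Q u v ^ (N - 1) * Q u v := by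
    intro u v
    rw [← pow_succ]
    congr 1
    omega
  have d1 : ∀ u v : ℂ, (Q u v).natDegree ≤ 2 := by
    intro u v
    unfold Q
    compute_degree
  refine ⟨?_, ?_, ?_⟩
  · apply dft K hK ω ω' hω hωω'
    · intro j hj
      rw [← LP L N (3 * K) hNK a b (ω ^ j) (ω' ^ j) (hz j), hQ]
      exact hL j hj _ (d1 _ _)
    · exact hr
  · apply dft K hK ω ω' hω hωω'
    · intro j hj
      rw [← LBp L N (3 * K) hNK a b (ω ^ j) (ω' ^ j) (hz j)]
      have e : (C (a * ω' ^ j) + X) ^ N * ((N : ℂ[X]) * (C (b * ω ^ j) * X)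
          * (1 + C (b * ω ^ j) * X) ^ (N - 1))
          = Q (a * ω' ^ j) (b * ω ^ j) ^ (N - 1)
            * ((C (a * ω' ^ j) + X) * (C ((N : ℂ) * (b * ω ^ j)) * X)) := by
        have h4 : (C (a * ω' ^ j) + X : ℂ[X]) ^ N = (C (a * ω' ^ j) + X) ^ (N - 1)
            * (C (a * ω' ^ j) + X) := by
          rw [← pow_succ]
          congr 1
          omega
        rw [h4, Q, mul_pow]
        simp only [C_mul, map_natCast]
        ring
      rw [e]
      apply hL j hj
      compute_degree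
    · exact hr
  · apply dft K hK ω ω' hω hωω'
    · intro j hj
      rw [← LBm L N (3 * K) hNK a b (ω ^ j) (ω' ^ j) (hz j)]
      have e : ((N : ℂ[X]) * C (a * ω' ^ j) * (C (a * ω' ^ j) + X) ^ (N - 1))
          * (1 + C (b * ω ^ j) * X) ^ N
          = Q (a * ω' ^ j) (b * ω ^ j) ^ (N - 1)
            * (C ((N : ℂ) * (a * ω' ^ j)) * (1 + C (b * ω ^ j) * X)) := by
        have h4 : (1 + C (b * ω ^ j) * X : ℂ[X]) ^ N = (1 + C (b * ω ^ j) * X) ^ (N - 1)
            * (1 + C (b * ω ^ j) * X) := by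
          rw [← pow_succ]
          congr 1
          omega
        rw [h4, Q, mul_pow]
        simp only [C_mul, map_natCast]
        ring
      rw [e]
      apply hL j hj
      have : (C ((N : ℂ) * (a * ω' ^ j)) * (1 + C (b * ω ^ j) * X) : ℂ[X]).natDegree ≤ 1 := by
        compute_degree
      omega
    · exact hr

end Pool.Agent.H86.Waring
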