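import Pool.Agent.H86.Waring.Root
import Pool.Agent.H86.Waring.Expand

set_option autoImplicit false

/-!
# Assembly of the configuration of quadratics
-/

namespace Pool.Agent.H86.Waring

open Finset Filter Topology Polynomial

def pp (K r : ℕ) : Fin 3 → ℕ := ![r, K + r, 2 * K + r]

lemma pp_inj (K r : ℕ) (hK : 0 < K) : Function.Injective (pp K r) := by
  intro i j h
  fin_cases i <;> fin_cases j <;> simp [pp] at h ⊢ <;> omega

lemma det_cond (N K r : ℕ) (hN : 1 ≤ N) (hK : 2 ≤ K) (hr : 0 < r) (hrK : r < K) :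
    xi K ^ r * s0 N K ^ 2 * ((∏ l, ((pp K (K - r) l : ℂ) + 1)) * ∏ l, ((pp K r l : ℂ) + 1)) ≠
      ((N : ℂ) * ((N : ℂ) + 1)) ^ 2 * ((xi K ^ r * xi K - 1) * (xi K - xi K ^ r)) := by
  have h := hdet_ok N K r hN hK hr hrK
    ((∏ l, ((pp K (K - r) l : ℝ) + 1)) * ∏ l, ((pp K r l : ℝ) + 1)) (by
      apply mul_pos <;> exact Finset.prod_pos (fun l _ => by positivity))
  push_cast at h
  exact h

/-- the class conclusion at a given `x` -/
def ClassOK (N K r : ℕ) (a : ℂ → ℂ) (x : ℂ) : Prop :=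
  ∀ φ ψ : Fin 3 → ℂ,
      (∑ l, ψ l * F N (pp K (K - r) l) x + ∑ l, φ l * F N (pp K r l) x = 0) →
      (∑ l, ψ l * fC N (xi K) a (pp K (K - r) l) x
        + xi K ^ r * ∑ l, φ l * fC N (xi K) a (pp K r l) x = 0) →
      (∑ l, ψ l * fA0 N (pp K (K - r) l) x + ∑ l, φ l * D N (pp K r l) x = 0) →
      (∑ l, ψ l * D N (pp K (K - r) l) x + ∑ l, φ l * fA0 N (pp K r l) x = 0) →
      (∑ l, ψ l * fA N (xi K) a (pp K (K - r) l) x
        + xi K ^ r * ∑ l, φ l * fB N (xi K) a (pp K r l) x = 0) →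
      (∑ l, ψ l * fB N (xi K) a (pp K (K - r) l) x
        + xi K ^ r * ∑ l, φ l * fA N (xi K) a (pp K r l) x = 0) →
      φ = 0 ∧ ψ = 0

/-- everything we need about the parameter `x` -/
structure Good (N K : ℕ) (a : ℂ → ℂ) (x : ℂ) : Prop where
  x0 : x ≠ 0
  rel : F N (2 * K) x * F N K (yy (xi K) a x) = a x ^ K * (F N K x * F N (2 * K) (yy (xi K) a x))
  FK : F N K x ≠ 0
  fCK : fC N (xi K) a K x ≠ 0
  w0 : fC N (xi K) a K x * F N 0 x - F N K x * fC N (xi K) a 0 x ≠ 0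
  cl : ∀ r, 0 < r → r < K → ClassOK N K r a x
  cl0 : ∀ ψ1 ψ2 φ1 φ2 : ℂ,
      (ψ1 * F N K x + ψ2 * F N (2 * K) x + φ1 * F N K x + φ2 * F N (2 * K) x = 0) →
      (ψ1 * fA0 N K x + ψ2 * fA0 N (2 * K) x + φ1 * D N K x + φ2 * D N (2 * K) x = 0) →
      (ψ1 * D N K x + ψ2 * D N (2 * K) x + φ1 * fA0 N K x + φ2 * fA0 N (2 * K) x = 0) →
      (x ^ (2 * K) * (ψ1 * (((2 * N).choose (N - K) : ℂ) / (N.choose K : ℂ))
        + ψ2 * (((2 * N).choose (N - 2 * K) : ℂ) / (N.choose (2 * K) : ℂ)))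
        + x ^ K * (φ1 * (((2 * N).choose (N + K) : ℂ) / (N.choose K : ℂ)))
        + φ2 * (((2 * N).choose (N + 2 * K) : ℂ) / (N.choose (2 * K) : ℂ)) = 0) →
      ψ1 = 0 ∧ ψ2 = 0 ∧ φ1 = 0 ∧ φ2 = 0

lemma exists_good (N K : ℕ) (hN : 1 ≤ N) (hK : 2 ≤ K) (hKN : 2 * K ≤ N) :
    ∃ (a : ℂ → ℂ) (x : ℂ), Good N K a x := by
  have hK0 : K ≠ 0 := by omega
  obtain ⟨a, ha0, ha, hrel⟩ := exists_a N K hN hK0
  have e1 : ∀ᶠ x in 𝓝[≠] (0 : ℂ), x ≠ 0 := self_mem_nhdsWithin
  have e2 := hrel.filter_mono (nhdsWithin_le_nhds (s := {(0 : ℂ)}ᶜ))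
  have e3 : ∀ᶠ x in 𝓝[≠] (0 : ℂ), F N K x ≠ 0 :=
    (tendsto_F hN K).eventually_ne one_ne_zero
  have e4 : ∀ᶠ x in 𝓝[≠] (0 : ℂ), fC N (xi K) a K x ≠ 0 :=
    (tendsto_fC (ξ := xi K) hN ha0 ha K).eventually_ne one_ne_zero
  have e5 := w0_ne N K hN hK a ha0 ha
  have e6 : ∀ᶠ x in 𝓝[≠] (0 : ℂ), ∀ r ∈ Finset.Ioo 0 K, ClassOK N K r a x := by
    rw [Filter.eventually_all_finset]
    intro r hr
    rw [Finset.mem_Ioo] at hr
    have hη : xi K ^ r ≠ 1 := by
      intro h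
      have := (xi_prim hK0).dvd_of_pow_eq_one r h
      exact absurd (Nat.le_of_dvd hr.1 this) (by omega)
    exact class_inj hN ha0 ha (xi K ^ r) (pp K r) (pp K (K - r)) (pp_inj K r (by omega))
      (pp_inj K (K - r) (by omega)) hη (det_cond N K r hN hK hr.1 hr.2)
  have e7 := class0_inj N K hN hK0 (((2 * N).choose (N - K) : ℂ) / (N.choose K : ℂ))
    (((2 * N).choose (N - 2 * K) : ℂ) / (N.choose (2 * K) : ℂ))
    (((2 * N).choose (N + K) : ℂ) / (N.choose K : ℂ))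
    (((2 * N).choose (N + 2 * K) : ℂ) / (N.choose (2 * K) : ℂ)) (by
      apply div_ne_zero <;> rw [Nat.cast_ne_zero] <;> exact (Nat.choose_pos (by omega)).ne')
  obtain ⟨x, h1, h2, h3, h4, h5, h6, h7⟩ :=
    (e1.and (e2.and (e3.and (e4.and (e5.and (e6.and e7)))))).exists
  exact ⟨a, x, ⟨h1, h2, h3, h4, h5, fun r hr hrK => h6 r (Finset.mem_Ioo.2 ⟨hr, hrK⟩), h7⟩⟩

section

variable {N K : ℕ} {a : ℂ → ℂ} {x : ℂ}

lemma xi_inv (K : ℕ) (hK : K ≠ 0) : xi K * (xi K)⁻¹ = 1 :=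
  mul_inv_cancel₀ ((xi_prim hK).ne_zero hK)

lemma xi_pow_add (K r m : ℕ) (hK : K ≠ 0) : xi K ^ (m * K + r) = xi K ^ r := by
  rw [pow_add, mul_comm m K, pow_mul, (xi_prim hK).pow_eq_one, one_pow, one_mul]

/-- evaluation of a functional on the sum of the `N`-th powers of one orbit -/
lemma orbit_sum (L : ℂ[X] →ₗ[ℂ] ℂ) (N K : ℕ) (hK : 0 < K) (hNK : N < 3 * K) (a b : ℂ) :
    L (∑ j : Fin K, Q (a * ((xi K)⁻¹) ^ (j : ℕ)) (b * xi K ^ (j : ℕ)) ^ N)
      = (K : ℂ) * (cls K (hi L N b (fun ν => F N ν (a * b))) 0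
        + cls K (lo L N a (fun ν => F N ν (a * b))) 0) := by
  rw [← dft_sum K hK (xi K) (xi K)⁻¹ (xi_prim hK.ne') (xi_inv K hK.ne'), map_sum,
    Finset.sum_range]
  apply Finset.sum_congr rfl
  intro j _
  rw [LP L N (3 * K) hNK a b (xi K ^ (j : ℕ)) ((xi K)⁻¹ ^ (j : ℕ))
    (by rw [← mul_pow, xi_inv K hK.ne', one_pow])]

/-- the relation -/
lemma relation (hK : 0 < K) (hNK : N < 3 * K) (hg : Good N K a x) (ρ : ℂ)
    (hρ : ρ = -(F N K x / fC N (xi K) a K x)) :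
    ∑ j : Fin K, Q (1 * ((xi K)⁻¹) ^ (j : ℕ)) (x * xi K ^ (j : ℕ)) ^ N
      + C ρ * ∑ j : Fin K, Q (a x * ((xi K)⁻¹) ^ (j : ℕ)) ((xi K * x * a x) * xi K ^ (j : ℕ)) ^ N
      = C ((K : ℂ) * (F N 0 x + ρ * fC N (xi K) a 0 x)) * X ^ N := by
  have key : ∀ L : ℂ[X] →ₗ[ℂ] ℂ,
      L (∑ j : Fin K, Q (1 * ((xi K)⁻¹) ^ (j : ℕ)) (x * xi K ^ (j : ℕ)) ^ N
      + C ρ * ∑ j : Fin K, Q (a x * ((xi K)⁻¹) ^ (j : ℕ)) ((xi K * x * a x) * xi K ^ (j : ℕ)) ^ N)
      = L (C ((K : ℂ) * (F N 0 x + ρ * fC N (xi K) a 0 x)) * X ^ N) := by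
    intro L
    rw [map_add, ← smul_eq_C_mul, ← smul_eq_C_mul, map_smul, map_smul, orbit_sum L N K hK hNK,
      orbit_sum L N K hK hNK, smul_eq_mul, smul_eq_mul]
    have hxi : xi K ^ K = 1 := (xi_prim hK.ne').pow_eq_one
    have hxi2 : xi K ^ (2 * K) = 1 := by rw [mul_comm, pow_mul, hxi, one_pow]
    have hy : a x * (xi K * x * a x) = yy (xi K) a x := by
      unfold yy
      ring
    rw [hy, one_mul]
    have hK2 : (K : ℕ) ≠ 0 := hK.ne'
    have h2K : 2 * K ≠ 0 := by omega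
    simp only [cls, hi, lo, add_zero, if_true, hK2, h2K, if_false, one_pow, pow_zero, mul_pow,
      hxi, hxi2, mul_one, one_mul, Nat.choose_zero_right, Nat.cast_one]
    have r1 : F N K x + ρ * (a x ^ K * F N K (yy (xi K) a x)) = 0 := by
      rw [hρ]
      have := hg.fCK
      unfold fC at this ⊢
      rw [neg_mul, div_mul_cancel₀ _ this, add_neg_cancel]
    have r2 : F N (2 * K) x + ρ * (a x ^ (2 * K) * F N (2 * K) (yy (xi K) a x)) = 0 := by
      rw [hρ]
      have h1 := hg.fCK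
      have h2 := hg.rel
      unfold fC at h1 ⊢
      have h3 : F N K (yy (xi K) a x) ≠ 0 := right_ne_zero_of_mul h1
      have h4 : a x ^ K ≠ 0 := left_ne_zero_of_mul h1
      have h5 : a x ^ (2 * K) = a x ^ K * a x ^ K := by rw [two_mul, pow_add]
      rw [h5]
      field_simp
      linear_combination h2
    unfold fC
    rw [pow_zero, one_mul]
    linear_combination ((K : ℂ) * ((N.choose K : ℂ) * L (X ^ (N + K)) * x ^ K
      + (N.choose K : ℂ) * L (X ^ (N - K)))) * r1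
      + ((K : ℂ) * ((N.choose (2 * K) : ℂ) * L (X ^ (N + 2 * K)) * x ^ (2 * K)
      + (N.choose (2 * K) : ℂ) * L (X ^ (N - 2 * K)))) * r2
  ext m
  exact key (Polynomial.lcoeff ℂ m)

/-- the functionals killing all tangent spaces vanish outside the special class -/
lemma outside (hN : 1 ≤ N) (hK : 2 ≤ K) (hNK : N < 3 * K) (hg : Good N K a x)
    (L : ℂ[X] →ₗ[ℂ] ℂ)
    (h1 : ∀ j < K, ∀ r : ℂ[X], r.natDegree ≤ 2 →
      L (Q (1 * ((xi K)⁻¹) ^ j) (x * xi K ^ j) ^ (N - 1) * r) = 0)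
    (h2 : ∀ j < K, ∀ r : ℂ[X], r.natDegree ≤ 2 →
      L (Q (a x * ((xi K)⁻¹) ^ j) ((xi K * x * a x) * xi K ^ j) ^ (N - 1) * r) = 0)
    (r : ℕ) (hr : 0 < r) (hrK : r < K) :
    (∀ l, pp K r l ≤ N → L (X ^ (N + pp K r l)) = 0) ∧
    (∀ l, pp K (K - r) l ≤ N → L (X ^ (N - pp K (K - r) l)) = 0) := by
  have hK0 : K ≠ 0 := by omega
  obtain ⟨a1, a2, a3⟩ := class_conditions L N K hN (by omega) hNK (xi K) (xi K)⁻¹ (xi_prim hK0)
    (xi_inv K hK0) 1 x h1 r hrK
  obtain ⟨b1, b2, b3⟩ := class_conditions L N K hN (by omega) hNK (xi K) (xi K)⁻¹ (xi_prim hK0)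
    (xi_inv K hK0) (a x) (xi K * x * a x) h2 r hrK
  have hy : a x * (xi K * x * a x) = yy (xi K) a x := by
    unfold yy
    ring
  have hmod : (K - r) % K = K - r := Nat.mod_eq_of_lt (by omega)
  rw [hy, hmod] at b1 b2 b3
  rw [one_mul, hmod] at a1 a2 a3
  have n1 : K - r ≠ 0 := by omega
  have n2 : K + (K - r) ≠ 0 := by omega
  have n3 : 2 * K + (K - r) ≠ 0 := by omega
  have x1 : xi K ^ (K + r) = xi K ^ r := by
    have := xi_pow_add K r 1 hK0
    rwa [one_mul] at this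
  have x2 : xi K ^ (2 * K + r) = xi K ^ r := xi_pow_add K r 2 hK0
  simp only [cls, hi, lo, n1, n2, n3, if_false, one_pow, mul_one, mul_pow, x1, x2]
    at a1 a2 a3 b1 b2 b3
  have hc := hg.cl r hr hrK
    (fun l => (N.choose (pp K r l) : ℂ) * L (X ^ (N + pp K r l)) * x ^ (pp K r l))
    (fun l => (N.choose (pp K (K - r) l) : ℂ) * L (X ^ (N - pp K (K - r) l)))
  simp only [Fin.sum_univ_three, pp, Matrix.cons_val_zero, Matrix.cons_val_one,
    Matrix.cons_val_two, Matrix.head_cons, Matrix.tail_cons, Matrix.cons_val, fC, fA0, fA, fB] at hc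
  have hc' := hc (by linear_combination a1) (by linear_combination b1) (by linear_combination a3)
    (by linear_combination a2) (by linear_combination b3) (by linear_combination b2)
  constructor
  · intro l hl
    have h := congrFun hc'.1 l
    have h' : (N.choose (pp K r l) : ℂ) * L (X ^ (N + pp K r l)) * x ^ (pp K r l) = 0 := h
    have c1 : (N.choose (pp K r l) : ℂ) ≠ 0 := Nat.cast_ne_zero.2 (Nat.choose_pos hl).ne'
    have c2 : x ^ (pp K r l) ≠ 0 := pow_ne_zero _ hg.x0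
    exact (mul_eq_zero.1 ((mul_eq_zero.1 h').resolve_right c2)).resolve_left c1
  · intro l hl
    have h := congrFun hc'.2 l
    have h' : (N.choose (pp K (K - r) l) : ℂ) * L (X ^ (N - pp K (K - r) l)) = 0 := h
    have c1 : (N.choose (pp K (K - r) l) : ℂ) ≠ 0 := Nat.cast_ne_zero.2 (Nat.choose_pos hl).ne'
    exact (mul_eq_zero.1 h').resolve_left c1

lemma pp_surj (K r ν : ℕ) (hν : ν < 3 * K) (hr : ν % K = r) : ∃ l, pp K r l = ν := by
  have h1 : ν / K < 3 := Nat.div_lt_of_lt_mul (by rwa [mul_comm] at hν)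
  have h2 := Nat.div_add_mod ν K
  rw [hr] at h2
  interval_cases h : ν / K
  · exact ⟨0, by simp [pp]; omega⟩
  · exact ⟨1, by simp [pp]; omega⟩
  · exact ⟨2, by simp [pp]; omega⟩

/-- the functionals killing all tangent spaces vanish -/
lemma all_zero (hN : 1 ≤ N) (hK : 2 ≤ K) (hNK : N < 3 * K) (hKN : 2 * K ≤ N)
    (hg : Good N K a x) (L : ℂ[X] →ₗ[ℂ] ℂ)
    (h1 : ∀ j < K, ∀ r : ℂ[X], r.natDegree ≤ 2 →
      L (Q (1 * ((xi K)⁻¹) ^ j) (x * xi K ^ j) ^ (N - 1) * r) = 0)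
    (h2 : ∀ j < K, ∀ r : ℂ[X], r.natDegree ≤ 2 →
      L (Q (a x * ((xi K)⁻¹) ^ j) ((xi K * x * a x) * xi K ^ j) ^ (N - 1) * r) = 0)
    (h3 : L (X ^ N) = 0) (h4 : L ((1 + X) ^ (2 * N)) = 0) :
    ∀ m ≤ 2 * N, L (X ^ m) = 0 := by
  have hK0 : K ≠ 0 := by omega
  have hi1 : ∀ ν, ν ≤ N → ¬ K ∣ ν → L (X ^ (N + ν)) = 0 := by
    intro ν hν hd
    have hr : 0 < ν % K := Nat.pos_of_ne_zero (fun h => hd (Nat.dvd_of_mod_eq_zero h))
    obtain ⟨l, hl⟩ := pp_surj K (ν % K) ν (by omega) rfl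
    have := (outside hN hK hNK hg L h1 h2 (ν % K) hr (Nat.mod_lt _ (by omega))).1 l (by omega)
    rwa [hl] at this
  have lo1 : ∀ ν, ν ≤ N → ¬ K ∣ ν → L (X ^ (N - ν)) = 0 := by
    intro ν hν hd
    have hr : 0 < ν % K := Nat.pos_of_ne_zero (fun h => hd (Nat.dvd_of_mod_eq_zero h))
    have hr2 : ν % K < K := Nat.mod_lt _ (by omega)
    obtain ⟨l, hl⟩ := pp_surj K (ν % K) ν (by omega) rfl
    have h5 := (outside hN hK hNK hg L h1 h2 (K - ν % K) (by omega) (by omega)).2 l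
    have h6 : K - (K - ν % K) = ν % K := by omega
    rw [h6, hl] at h5
    exact h5 hν
  -- the special class
  have hmul : ∀ ν, 0 < ν → ν ≤ N → K ∣ ν → ν = K ∨ ν = 2 * K := by
    intro ν h0 hν hd
    obtain ⟨c, rfl⟩ := hd
    have hc : c < 3 := by
      by_contra h
      have : K * 3 ≤ K * c := Nat.mul_le_mul_left K (by omega)
      omega
    interval_cases c
    · omega
    · left; omega
    · right; omega
  obtain ⟨a1, a2, a3⟩ := class_conditions L N K hN (by omega) hNK (xi K) (xi K)⁻¹ (xi_prim hK0)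
    (xi_inv K hK0) 1 x h1 0 (by omega)
  have hmod : (K - 0) % K = 0 := by simp
  rw [one_mul, hmod] at a1 a2 a3
  have n2 : K + 0 ≠ 0 := by omega
  have n3 : 2 * K + 0 ≠ 0 := by omega
  simp only [cls, hi, lo, n2, n3, hK0, if_false, if_true, one_pow, mul_one, add_zero, h3, mul_zero,
    zero_mul, zero_add] at a1 a2 a3
  have n4 : 2 * K ≠ 0 := by omega
  simp only [n4, if_false] at a1 a2 a3
  have hsum : ((2 * N).choose (N - K) : ℂ) * L (X ^ (N - K))
      + ((2 * N).choose (N - 2 * K) : ℂ) * L (X ^ (N - 2 * K))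
      + ((2 * N).choose (N + K) : ℂ) * L (X ^ (N + K))
      + ((2 * N).choose (N + 2 * K) : ℂ) * L (X ^ (N + 2 * K)) = 0 := by
    have e : L ((1 + X) ^ (2 * N)) = ∑ m ∈ range (2 * N + 1),
        ((2 * N).choose m : ℂ) * L (X ^ m) := by
      have : (1 + X : ℂ[X]) ^ (2 * N) = ∑ m ∈ range (2 * N + 1),
          ((2 * N).choose m : ℂ) • (X : ℂ[X]) ^ m := by
        rw [add_comm, add_pow]
        apply Finset.sum_congr rfl
        intro m _
        rw [smul_eq_C_mul, map_natCast, one_pow, mul_one]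
        ring
      rw [this, map_sum]
      apply Finset.sum_congr rfl
      intro m _
      rw [map_smul, smul_eq_mul]
    rw [e] at h4
    have hsub : ({N - K, N - 2 * K, N + K, N + 2 * K} : Finset ℕ) ⊆ range (2 * N + 1) := by
      intro m hm
      simp only [Finset.mem_insert, Finset.mem_singleton] at hm
      rw [mem_range]
      omega
    rw [← Finset.sum_subset hsub] at h4
    · rw [Finset.sum_insert, Finset.sum_insert, Finset.sum_insert, Finset.sum_singleton] at h4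
      · linear_combination h4
      · simp only [Finset.mem_singleton]; omega
      · simp only [Finset.mem_insert, Finset.mem_singleton]; omega
      · simp only [Finset.mem_insert, Finset.mem_singleton]; omega
    · intro m hm hm2
      rw [mem_range] at hm
      simp only [Finset.mem_insert, Finset.mem_singleton, not_or] at hm2
      rcases lt_trichotomy m N with h | h | h
      · have e1 : m = N - (N - m) := by omega
        by_cases hd : K ∣ N - m
        · rcases hmul (N - m) (by omega) (by omega) hd with h' | h' <;> omega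
        · rw [e1, lo1 (N - m) (by omega) hd, mul_zero]
      · rw [h, h3, mul_zero]
      · have e1 : m = N + (m - N) := by omega
        by_cases hd : K ∣ m - N
        · rcases hmul (m - N) (by omega) (by omega) hd with h' | h' <;> omega
        · rw [e1, hi1 (m - N) (by omega) hd, mul_zero]
  have cK : (N.choose K : ℂ) ≠ 0 := Nat.cast_ne_zero.2 (Nat.choose_pos (by omega)).ne'
  have c2K : (N.choose (2 * K) : ℂ) ≠ 0 := Nat.cast_ne_zero.2 (Nat.choose_pos (by omega)).ne'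
  have hx := hg.x0
  have hxK : x ^ K ≠ 0 := pow_ne_zero _ hx
  have hx2K : x ^ (2 * K) ≠ 0 := pow_ne_zero _ hx
  have h0 := hg.cl0 ((N.choose K : ℂ) * L (X ^ (N - K)))
    ((N.choose (2 * K) : ℂ) * L (X ^ (N - 2 * K)))
    ((N.choose K : ℂ) * L (X ^ (N + K)) * x ^ K)
    ((N.choose (2 * K) : ℂ) * L (X ^ (N + 2 * K)) * x ^ (2 * K))
    (by linear_combination a1) (by unfold fA0; linear_combination a3)
    (by unfold fA0; linear_combination a2)
    (by
      have hp : x ^ (2 * K) = x ^ K * x ^ K := by rw [two_mul, pow_add]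
      rw [hp]
      field_simp
      linear_combination (x ^ K * x ^ K) * hsum)
  obtain ⟨z1, z2, z3, z4⟩ := h0
  have y1 : L (X ^ (N - K)) = 0 := (mul_eq_zero.1 z1).resolve_left cK
  have y2 : L (X ^ (N - 2 * K)) = 0 := (mul_eq_zero.1 z2).resolve_left c2K
  have y3 : L (X ^ (N + K)) = 0 :=
    (mul_eq_zero.1 ((mul_eq_zero.1 z3).resolve_right hxK)).resolve_left cK
  have y4 : L (X ^ (N + 2 * K)) = 0 :=
    (mul_eq_zero.1 ((mul_eq_zero.1 z4).resolve_right hx2K)).resolve_left c2K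
  intro m hm
  rcases lt_trichotomy m N with h | h | h
  · have e1 : m = N - (N - m) := by omega
    by_cases hd : K ∣ N - m
    · rcases hmul (N - m) (by omega) (by omega) hd with h' | h'
      · rw [e1, h', y1]
      · rw [e1, h', y2]
    · rw [e1, lo1 (N - m) (by omega) hd]
  · rw [h, h3]
  · have e1 : m = N + (m - N) := by omega
    by_cases hd : K ∣ m - N
    · rcases hmul (m - N) (by omega) (by omega) hd with h' | h'
      · rw [e1, h', y3]
      · rw [e1, h', y4]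
    · rw [e1, hi1 (m - N) (by omega) hd]

end

end Pool.Agent.H86.Waring
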