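import Mathlib

set_option autoImplicit false

/-!
# Basic functions for the Waring problem for entire functions
-/

namespace Pool.Agent.H86.Waring

open Finset Filter Topology

/-- the ratio `C(N, ν+i) / C(N, ν)`, as a rational function of `ν` -/
noncomputable def g (N ν i : ℕ) : ℂ :=
  ∏ j ∈ range i, (((N : ℂ) - ν - j) / ((ν : ℂ) + 1 + j))

lemma choose_mul_g (N ν i : ℕ) : (N.choose ν : ℂ) * g N ν i = (N.choose (ν + i) : ℂ) := by
  induction i with
  | zero => simp [g]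
  | succ i ih =>
    have h1 : g N ν (i + 1) = g N ν i * (((N : ℂ) - ν - i) / ((ν : ℂ) + 1 + i)) := by
      unfold g
      rw [Finset.prod_range_succ]
    have h2 : ((ν : ℂ) + 1 + i) ≠ 0 := by
      have : ((ν + 1 + i : ℕ) : ℂ) ≠ 0 := Nat.cast_ne_zero.2 (by omega)
      push_cast at this
      exact this
    have h3 := Nat.choose_succ_right_eq N (ν + i)
    have h4 : ((N.choose (ν + i + 1) : ℕ) : ℂ) * ((ν : ℂ) + 1 + i)
        = (N.choose (ν + i) : ℂ) * ((N : ℂ) - ν - i) := by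
      rcases le_or_gt (ν + i) N with h | h
      · have := congrArg (fun n : ℕ => (n : ℂ)) h3
        push_cast [Nat.cast_sub h] at this
        linear_combination this
      · rw [Nat.choose_eq_zero_of_lt h, Nat.choose_eq_zero_of_lt (by omega)]
        simp
    rw [h1, ← mul_assoc, ih, ← mul_div_assoc, ← h4]
    rw [← add_assoc]
    field_simp

/-- normalised coefficient functions -/
noncomputable def F (N ν : ℕ) (y : ℂ) : ℂ :=
  ∑ i ∈ range (N + 1), ((N.choose i : ℂ) * g N ν i) * y ^ i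

noncomputable def D (N ν : ℕ) (y : ℂ) : ℂ :=
  ∑ i ∈ range (N + 1), ((i : ℂ) * (N.choose i : ℂ) * g N ν i) * y ^ i

noncomputable def kap (N ν : ℕ) : ℂ := (N : ℂ) * ((N : ℂ) - ν) / ((ν : ℂ) + 1)

lemma hasStrictDerivAt_psum (c : ℕ → ℂ) {n : ℕ} (hn : 1 ≤ n) :
    HasStrictDerivAt (fun y : ℂ => ∑ i ∈ range (n + 1), c i * y ^ i) (c 1) 0 := by
  have h : HasStrictDerivAt (fun y : ℂ => ∑ i ∈ range (n + 1), c i * y ^ i)
      (∑ i ∈ range (n + 1), c i * ((i : ℂ) * (0 : ℂ) ^ (i - 1))) 0 := by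
    apply HasStrictDerivAt.fun_sum
    intro i _
    exact (hasStrictDerivAt_pow i (0 : ℂ)).const_mul (c i)
  convert h using 1
  rw [Finset.sum_eq_single 1]
  · simp
  · intro i _ hi
    rcases Nat.eq_zero_or_pos i with h0 | h0
    · simp [h0]
    · rw [zero_pow (by omega)]
      simp
  · intro h1
    exact absurd (mem_range.2 (by omega)) h1

lemma g_one (N ν : ℕ) : g N ν 1 = ((N : ℂ) - ν) / ((ν : ℂ) + 1) := by
  simp [g]

lemma F_zero (N ν : ℕ) : F N ν 0 = 1 := by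
  unfold F
  rw [Finset.sum_eq_single 0]
  · simp [g]
  · intro i _ hi
    simp [hi]
  · intro h
    exact absurd (mem_range.2 (by omega)) h

lemma D_zero (N ν : ℕ) : D N ν 0 = 0 := by
  unfold D
  apply Finset.sum_eq_zero
  intro i _
  rcases Nat.eq_zero_or_pos i with h | h
  · simp [h]
  · rw [zero_pow (by omega)]
    simp

lemma F_deriv (N ν : ℕ) (hN : 1 ≤ N) : HasStrictDerivAt (F N ν) (kap N ν) 0 := by
  have h := hasStrictDerivAt_psum (fun i => (N.choose i : ℂ) * g N ν i) hN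
  have h2 : (N.choose 1 : ℂ) * g N ν 1 = kap N ν := by
    rw [g_one, Nat.choose_one_right, kap]
    ring
  simp only [h2] at h
  exact h

lemma D_deriv (N ν : ℕ) (hN : 1 ≤ N) : HasStrictDerivAt (D N ν) (kap N ν) 0 := by
  have h := hasStrictDerivAt_psum (fun i => (i : ℂ) * (N.choose i : ℂ) * g N ν i) hN
  have h2 : ((1 : ℕ) : ℂ) * (N.choose 1 : ℂ) * g N ν 1 = kap N ν := by
    rw [g_one, Nat.choose_one_right, kap]
    push_cast
    ring
  simp only [h2] at h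
  exact h

lemma succ_ne (ν : ℕ) : (ν : ℂ) + 1 ≠ 0 := by
  exact_mod_cast Nat.succ_ne_zero ν

lemma kap_mul (N ν : ℕ) : ((ν : ℂ) + 1) * kap N ν = (N : ℂ) * ((N : ℂ) - ν) := by
  rw [kap, mul_div_cancel₀ _ (succ_ne ν)]

lemma kap_eq (N ν : ℕ) : kap N ν = (N : ℂ) * ((N : ℂ) + 1) / ((ν : ℂ) + 1) - N := by
  have := succ_ne ν
  rw [kap]
  field_simp
  ring

/-- one-dimensional implicit function theorem in the form we need -/
lemma implicit1 (G : ℂ × ℂ → ℂ) (A B : ℂ) (hB : B ≠ 0)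
    (hG : HasStrictFDerivAt G
      (A • ContinuousLinearMap.fst ℂ ℂ ℂ + B • ContinuousLinearMap.snd ℂ ℂ ℂ) ((0 : ℂ), (1 : ℂ)))
    (h0 : G (0, 1) = 0) :
    ∃ a : ℂ → ℂ, a 0 = 1 ∧ HasDerivAt a (-A / B) 0 ∧ ∀ᶠ x in 𝓝 (0 : ℂ), G (x, a x) = 0 := by
  have hinv : ((A • ContinuousLinearMap.fst ℂ ℂ ℂ + B • ContinuousLinearMap.snd ℂ ℂ ℂ) ∘L
      ContinuousLinearMap.inr ℂ ℂ ℂ).IsInvertible := by
    refine ⟨ContinuousLinearEquiv.unitsEquivAut ℂ (Units.mk0 B hB), ?_⟩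
    ext
    simp
  have h1 := hG.eventually_apply_implicitFunctionOfProdDomain hinv
  have h2 := hG.tendsto_implicitFunctionOfProdDomain hinv
  have h3 := hG.hasStrictFDerivAt_implicitFunctionOfProdDomain hinv
  set a := hG.implicitFunctionOfProdDomain hinv with ha
  refine ⟨a, ?_, ?_, ?_⟩
  · have h4 := h3.continuousAt.tendsto
    exact tendsto_nhds_unique h4 h2
  · have h5 := h3.hasFDerivAt.hasDerivAt
    have h6 : ((A • ContinuousLinearMap.fst ℂ ℂ ℂ + B • ContinuousLinearMap.snd ℂ ℂ ℂ) ∘L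
      ContinuousLinearMap.inr ℂ ℂ ℂ)
        = ((ContinuousLinearEquiv.unitsEquivAut ℂ (Units.mk0 B hB) : ℂ ≃L[ℂ] ℂ) : ℂ →L[ℂ] ℂ) := by
      ext
      simp
    rw [h6, ContinuousLinearMap.inverse_equiv] at h5
    have h7 : (-((ContinuousLinearEquiv.unitsEquivAut ℂ (Units.mk0 B hB) : ℂ ≃L[ℂ] ℂ).symm
        : ℂ →L[ℂ] ℂ) ∘L ((A • ContinuousLinearMap.fst ℂ ℂ ℂ + B • ContinuousLinearMap.snd ℂ ℂ ℂ) ∘L
        ContinuousLinearMap.inl ℂ ℂ ℂ)) 1 = -A / B := by
      simp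
      field_simp
    rw [← h7]
    exact h5
  · filter_upwards [h1] with x hx
    rw [hx, h0]

end Pool.Agent.H86.Waring
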