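import Pool.Agent.H86.Waring.Basic

set_option autoImplicit false

/-!
# The linear algebra of one residue class
-/

namespace Pool.Agent.H86.Waring

open Finset Filter Topology

lemma second_diff (q : Fin 3 → ℕ) (ψ : Fin 3 → ℂ) (h0 : ∑ l, ψ l = 0)
    (h1 : ∑ l, ψ l * (q l : ℂ) = 0) :
    ∑ l, ψ l * (q l : ℂ) ^ 2 = (∏ l, ((q l : ℂ) + 1)) * ∑ l, ψ l / ((q l : ℂ) + 1) := by
  have a0 := succ_ne (q 0)
  have a1 := succ_ne (q 1)
  have a2 := succ_ne (q 2)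
  simp only [Fin.sum_univ_three, Fin.prod_univ_three] at *
  field_simp
  linear_combination (-(((q 0 : ℂ) + 1) * ((q 1 : ℂ) + 1) + ((q 0 : ℂ) + 1) * ((q 2 : ℂ) + 1)
    + ((q 1 : ℂ) + 1) * ((q 2 : ℂ) + 1)) + ((q 0 : ℂ) + 1 + ((q 1 : ℂ) + 1) + ((q 2 : ℂ) + 1)) - 1)
      * h0 + (((q 0 : ℂ) + 1 + ((q 1 : ℂ) + 1) + ((q 2 : ℂ) + 1)) - 2) * h1

lemma vand3 (q : Fin 3 → ℕ) (hq : Function.Injective q) (ψ : Fin 3 → ℂ) (h0 : ∑ l, ψ l = 0)
    (h1 : ∑ l, ψ l * (q l : ℂ) = 0) (h2 : ∑ l, ψ l * (q l : ℂ) ^ 2 = 0) : ψ = 0 := by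
  have d : ∀ i j : Fin 3, i ≠ j → (q i : ℂ) - q j ≠ 0 := by
    intro i j hij h
    rw [sub_eq_zero, Nat.cast_inj] at h
    exact hij (hq h)
  simp only [Fin.sum_univ_three] at h0 h1 h2
  have e0 : ψ 0 * (((q 0 : ℂ) - q 1) * ((q 0 : ℂ) - q 2)) = 0 := by
    linear_combination h2 - ((q 1 : ℂ) + q 2) * h1 + (q 1 : ℂ) * q 2 * h0
  have e1 : ψ 1 * (((q 1 : ℂ) - q 0) * ((q 1 : ℂ) - q 2)) = 0 := by
    linear_combination h2 - ((q 0 : ℂ) + q 2) * h1 + (q 0 : ℂ) * q 2 * h0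
  have e2 : ψ 2 * (((q 2 : ℂ) - q 0) * ((q 2 : ℂ) - q 1)) = 0 := by
    linear_combination h2 - ((q 0 : ℂ) + q 1) * h1 + (q 0 : ℂ) * q 1 * h0
  have f0 := (mul_eq_zero.1 e0).resolve_right
    (mul_ne_zero (d 0 1 (by decide)) (d 0 2 (by decide)))
  have f1 := (mul_eq_zero.1 e1).resolve_right
    (mul_ne_zero (d 1 0 (by decide)) (d 1 2 (by decide)))
  have f2 := (mul_eq_zero.1 e2).resolve_right
    (mul_ne_zero (d 2 0 (by decide)) (d 2 1 (by decide)))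
  funext i
  fin_cases i
  · exact f0
  · exact f1
  · exact f2

lemma sum_kap_mul (N : ℕ) (q : Fin 3 → ℕ) (ψ : Fin 3 → ℂ) (h0 : ∑ l, ψ l = 0)
    (h1 : ∑ l, ψ l * (q l : ℂ) = 0) : ∑ l, ψ l * (((q l : ℂ) + 1) * kap N (q l)) = 0 := by
  simp only [kap_mul]
  simp only [Fin.sum_univ_three] at *
  linear_combination (N : ℂ) * N * h0 - N * h1

lemma sum_kap (N : ℕ) (q : Fin 3 → ℕ) (ψ : Fin 3 → ℂ) (h0 : ∑ l, ψ l = 0) :
    ∑ l, ψ l * kap N (q l) = (N : ℂ) * ((N : ℂ) + 1) * ∑ l, ψ l / ((q l : ℂ) + 1) := by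
  simp only [kap_eq]
  simp only [Fin.sum_univ_three] at *
  linear_combination -(N : ℂ) * h0

/-- the limiting linear system of a residue class has only the zero solution -/
lemma limit_kernel (N : ℕ) (ξ η s : ℂ) (p q : Fin 3 → ℕ)
    (hp : Function.Injective p) (hq : Function.Injective q) (hη : η ≠ 1)
    (hdet : η * s ^ 2 * ((∏ l, ((q l : ℂ) + 1)) * ∏ l, ((p l : ℂ) + 1)) ≠
      ((N : ℂ) * ((N : ℂ) + 1)) ^ 2 * ((η * ξ - 1) * (ξ - η)))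
    (φ ψ : Fin 3 → ℂ)
    (e1 : ∑ l, ψ l + ∑ l, φ l = 0)
    (e2 : ∑ l, ψ l + η * ∑ l, φ l = 0)
    (e3 : ∑ l, ψ l * (q l : ℂ) = 0)
    (e4 : ∑ l, φ l * (p l : ℂ) = 0)
    (e5 : ∑ l, ψ l * ((q l : ℂ) ^ 2 * s + ((q l : ℂ) + 1) * kap N (q l) * (ξ - 1))
        + ∑ l, φ l * (kap N (p l) * (η * ξ - 1)) = 0)
    (e6 : ∑ l, ψ l * (kap N (q l) * (ξ - η))
        + ∑ l, φ l * (η * ((p l : ℂ) ^ 2 * s + ((p l : ℂ) + 1) * kap N (p l) * (ξ - 1))) = 0) :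
    φ = 0 ∧ ψ = 0 := by
  have hφ0 : ∑ l, φ l = 0 := by
    have : (η - 1) * ∑ l, φ l = 0 := by linear_combination e2 - e1
    exact (mul_eq_zero.1 this).resolve_left (sub_ne_zero.2 hη)
  have hψ0 : ∑ l, ψ l = 0 := by linear_combination e1 - hφ0
  have a1 := sum_kap_mul N q ψ hψ0 e3
  have a2 := sum_kap_mul N p φ hφ0 e4
  have b1 := sum_kap N q ψ hψ0
  have b2 := sum_kap N p φ hφ0
  have c1 := second_diff q ψ hψ0 e3
  have c2 := second_diff p φ hφ0 e4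
  set Yq := ∑ l, ψ l / ((q l : ℂ) + 1) with hYq
  set Yp := ∑ l, φ l / ((p l : ℂ) + 1) with hYp
  set Pq := ∏ l, ((q l : ℂ) + 1) with hPq
  set Pp := ∏ l, ((p l : ℂ) + 1) with hPp
  have E5 : s * Pq * Yq + (N : ℂ) * ((N : ℂ) + 1) * (η * ξ - 1) * Yp = 0 := by
    have h : ∑ l, ψ l * ((q l : ℂ) ^ 2 * s + ((q l : ℂ) + 1) * kap N (q l) * (ξ - 1))
        + ∑ l, φ l * (kap N (p l) * (η * ξ - 1))
        = s * (∑ l, ψ l * (q l : ℂ) ^ 2) + (ξ - 1) * (∑ l, ψ l * (((q l : ℂ) + 1) * kap N (q l)))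
          + (η * ξ - 1) * ∑ l, φ l * kap N (p l) := by
      simp only [Fin.sum_univ_three]
      ring
    rw [h, a1, b2, c1] at e5
    linear_combination e5
  have E6 : (N : ℂ) * ((N : ℂ) + 1) * (ξ - η) * Yq + η * s * Pp * Yp = 0 := by
    have h : ∑ l, ψ l * (kap N (q l) * (ξ - η))
        + ∑ l, φ l * (η * ((p l : ℂ) ^ 2 * s + ((p l : ℂ) + 1) * kap N (p l) * (ξ - 1)))
        = (ξ - η) * (∑ l, ψ l * kap N (q l)) + η * s * (∑ l, φ l * (p l : ℂ) ^ 2)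
          + η * (ξ - 1) * (∑ l, φ l * (((p l : ℂ) + 1) * kap N (p l))) := by
      simp only [Fin.sum_univ_three]
      ring
    rw [h, a2, b1, c2] at e6
    linear_combination e6
  have hd : η * s ^ 2 * (Pq * Pp) - ((N : ℂ) * ((N : ℂ) + 1)) ^ 2 * ((η * ξ - 1) * (ξ - η)) ≠ 0 :=
    sub_ne_zero.2 hdet
  have Y1 : Yq = 0 := by
    have : (η * s ^ 2 * (Pq * Pp) - ((N : ℂ) * ((N : ℂ) + 1)) ^ 2 * ((η * ξ - 1) * (ξ - η))) * Yq
        = 0 := by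
      linear_combination (η * s * Pp) * E5 - ((N : ℂ) * ((N : ℂ) + 1) * (η * ξ - 1)) * E6
    exact (mul_eq_zero.1 this).resolve_left hd
  have Y2 : Yp = 0 := by
    have : (η * s ^ 2 * (Pq * Pp) - ((N : ℂ) * ((N : ℂ) + 1)) ^ 2 * ((η * ξ - 1) * (ξ - η))) * Yp
        = 0 := by
      linear_combination (s * Pq) * E6 - ((N : ℂ) * ((N : ℂ) + 1) * (ξ - η)) * E5
    exact (mul_eq_zero.1 this).resolve_left hd
  constructor
  · exact vand3 p hp φ hφ0 e4 (by rw [c2, Y2, mul_zero])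
  · exact vand3 q hq ψ hψ0 e3 (by rw [c1, Y1, mul_zero])

lemma tendsto_div_of_hasDerivAt {f : ℂ → ℂ} {f' : ℂ} (h : HasDerivAt f f' 0) (h0 : f 0 = 0) :
    Tendsto (fun x => f x / x) (𝓝[≠] 0) (𝓝 f') := by
  have h1 := hasDerivAt_iff_tendsto_slope.1 h
  refine h1.congr' ?_
  filter_upwards [self_mem_nhdsWithin] with x _
  simp [slope, h0, div_eq_inv_mul]

section

variable (N : ℕ) (ξ : ℂ) (a : ℂ → ℂ)

/-- second argument -/
noncomputable def yy (x : ℂ) : ℂ := ξ * x * a x ^ 2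

noncomputable def fC (ν : ℕ) (x : ℂ) : ℂ := a x ^ ν * F N ν (yy ξ a x)
noncomputable def fB (ν : ℕ) (x : ℂ) : ℂ := a x ^ ν * D N ν (yy ξ a x)
noncomputable def fA (ν : ℕ) (x : ℂ) : ℂ :=
  a x ^ ν * ((ν : ℂ) * F N ν (yy ξ a x) + D N ν (yy ξ a x))
noncomputable def fA0 (ν : ℕ) (x : ℂ) : ℂ := (ν : ℂ) * F N ν x + D N ν x

variable {N ξ a} {s : ℂ}

lemma yy_zero : yy ξ a 0 = 0 := by simp [yy]

lemma yy_deriv (ha0 : a 0 = 1) (ha : HasDerivAt a s 0) : HasDerivAt (yy ξ a) ξ 0 := by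
  have h1 : HasDerivAt (fun x : ℂ => ξ * x) ξ 0 := by
    simpa using (hasDerivAt_id (0 : ℂ)).const_mul ξ
  have h2 := h1.mul (ha.fun_pow 2)
  have h3 : ξ * a 0 ^ 2 + ξ * 0 * (((2 : ℕ) : ℂ) * a 0 ^ (2 - 1) * s) = ξ := by
    simp [ha0]
  rw [h3] at h2
  exact h2

lemma apow_deriv (ha0 : a 0 = 1) (ha : HasDerivAt a s 0) (ν : ℕ) :
    HasDerivAt (fun x => a x ^ ν) ((ν : ℂ) * s) 0 := by
  have h := ha.fun_pow ν
  simpa [ha0] using h

lemma fF_deriv (hN : 1 ≤ N) (ha0 : a 0 = 1) (ha : HasDerivAt a s 0) (ν : ℕ) :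
    HasDerivAt (fun x => F N ν (yy ξ a x)) (kap N ν * ξ) 0 := by
  have h1 := (F_deriv N ν hN).hasDerivAt
  have h2 := yy_deriv (ξ := ξ) ha0 ha
  rw [← yy_zero (ξ := ξ) (a := a)] at h1
  exact h1.comp 0 h2

lemma fD_deriv (hN : 1 ≤ N) (ha0 : a 0 = 1) (ha : HasDerivAt a s 0) (ν : ℕ) :
    HasDerivAt (fun x => D N ν (yy ξ a x)) (kap N ν * ξ) 0 := by
  have h1 := (D_deriv N ν hN).hasDerivAt
  have h2 := yy_deriv (ξ := ξ) ha0 ha
  rw [← yy_zero (ξ := ξ) (a := a)] at h1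
  exact h1.comp 0 h2

lemma fC_deriv (hN : 1 ≤ N) (ha0 : a 0 = 1) (ha : HasDerivAt a s 0) (ν : ℕ) :
    HasDerivAt (fC N ξ a ν) ((ν : ℂ) * s + kap N ν * ξ) 0 := by
  have h := (apow_deriv ha0 ha ν).mul (fF_deriv (ξ := ξ) hN ha0 ha ν)
  simp only [yy_zero, F_zero, ha0, one_pow, one_mul, mul_one] at h
  exact h

lemma fB_deriv (hN : 1 ≤ N) (ha0 : a 0 = 1) (ha : HasDerivAt a s 0) (ν : ℕ) :
    HasDerivAt (fB N ξ a ν) (kap N ν * ξ) 0 := by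
  have h := (apow_deriv ha0 ha ν).mul (fD_deriv (ξ := ξ) hN ha0 ha ν)
  simp only [yy_zero, D_zero, ha0, one_pow, one_mul, mul_zero, zero_add] at h
  exact h

lemma fA_deriv (hN : 1 ≤ N) (ha0 : a 0 = 1) (ha : HasDerivAt a s 0) (ν : ℕ) :
    HasDerivAt (fA N ξ a ν) ((ν : ℂ) ^ 2 * s + ((ν : ℂ) + 1) * kap N ν * ξ) 0 := by
  have h := (apow_deriv ha0 ha ν).mul
    (((fF_deriv (ξ := ξ) hN ha0 ha ν).const_mul (ν : ℂ)).add (fD_deriv (ξ := ξ) hN ha0 ha ν))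
  simp only [yy_zero, D_zero, F_zero, ha0, one_pow, one_mul, mul_one, add_zero, Pi.add_apply] at h
  have e : (ν : ℂ) ^ 2 * s + ((ν : ℂ) + 1) * kap N ν * ξ
      = (ν : ℂ) * s * ν + ((ν : ℂ) * (kap N ν * ξ) + kap N ν * ξ) := by ring
  rw [e]
  exact h

lemma fA0_deriv (hN : 1 ≤ N) (ν : ℕ) :
    HasDerivAt (fA0 N ν) (((ν : ℂ) + 1) * kap N ν) 0 := by
  have h := (((F_deriv N ν hN).hasDerivAt).const_mul (ν : ℂ)).add (D_deriv N ν hN).hasDerivAt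
  have e : ((ν : ℂ) + 1) * kap N ν = (ν : ℂ) * kap N ν + kap N ν := by ring
  rw [e]
  exact h

lemma fC_zero (ha0 : a 0 = 1) (ν : ℕ) : fC N ξ a ν 0 = 1 := by
  simp [fC, yy_zero, F_zero, ha0]

lemma fB_zero (ν : ℕ) : fB N ξ a ν 0 = 0 := by
  simp [fB, yy_zero, D_zero]

lemma fA_zero (ha0 : a 0 = 1) (ν : ℕ) : fA N ξ a ν 0 = ν := by
  simp [fA, yy_zero, F_zero, D_zero, ha0]

lemma fA0_zero (ν : ℕ) : fA0 N ν 0 = ν := by
  simp [fA0, F_zero, D_zero]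

variable (N ξ a)

/-- the matrix of the linear system of a residue class -/
noncomputable def MM (η : ℂ) (p q : Fin 3 → ℕ) (x : ℂ) :
    Matrix (Fin 3 ⊕ Fin 3) (Fin 3 ⊕ Fin 3) ℂ :=
  Matrix.fromBlocks
    (fun i l => ![F N (q l) x, fA0 N (q l) x, (fA N ξ a (q l) x - fA0 N (q l) x) / x] i)
    (fun i l => ![F N (p l) x, D N (p l) x, (η * fB N ξ a (p l) x - D N (p l) x) / x] i)
    (fun i l => ![fC N ξ a (q l) x, D N (q l) x, (fB N ξ a (q l) x - η * D N (q l) x) / x] i)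
    (fun i l => ![η * fC N ξ a (p l) x, fA0 N (p l) x,
      (η * fA N ξ a (p l) x - η * fA0 N (p l) x) / x] i)

/-- its limit -/
noncomputable def M0 (s η : ℂ) (p q : Fin 3 → ℕ) :
    Matrix (Fin 3 ⊕ Fin 3) (Fin 3 ⊕ Fin 3) ℂ :=
  Matrix.fromBlocks
    (fun i l => ![1, (q l : ℂ), (q l : ℂ) ^ 2 * s + ((q l : ℂ) + 1) * kap N (q l) * (ξ - 1)] i)
    (fun i l => ![1, 0, kap N (p l) * (η * ξ - 1)] i)
    (fun i l => ![1, 0, kap N (q l) * (ξ - η)] i)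
    (fun i l => ![η, (p l : ℂ),
      η * ((p l : ℂ) ^ 2 * s + ((p l : ℂ) + 1) * kap N (p l) * (ξ - 1))] i)

variable {N ξ a}

lemma tendsto_F (hN : 1 ≤ N) (ν : ℕ) : Tendsto (F N ν) (𝓝[≠] 0) (𝓝 1) := by
  have h := ((F_deriv N ν hN).hasDerivAt.continuousAt).tendsto
  rw [F_zero] at h
  exact h.mono_left nhdsWithin_le_nhds

lemma tendsto_D (hN : 1 ≤ N) (ν : ℕ) : Tendsto (D N ν) (𝓝[≠] 0) (𝓝 0) := by
  have h := ((D_deriv N ν hN).hasDerivAt.continuousAt).tendsto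
  rw [D_zero] at h
  exact h.mono_left nhdsWithin_le_nhds

lemma tendsto_fA0 (hN : 1 ≤ N) (ν : ℕ) : Tendsto (fA0 N ν) (𝓝[≠] 0) (𝓝 (ν : ℂ)) := by
  have h := ((fA0_deriv hN ν).continuousAt).tendsto
  rw [fA0_zero] at h
  exact h.mono_left nhdsWithin_le_nhds

lemma tendsto_fC (hN : 1 ≤ N) (ha0 : a 0 = 1) (ha : HasDerivAt a s 0) (ν : ℕ) :
    Tendsto (fC N ξ a ν) (𝓝[≠] 0) (𝓝 1) := by
  have h := ((fC_deriv (ξ := ξ) hN ha0 ha ν).continuousAt).tendsto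
  rw [fC_zero ha0] at h
  exact h.mono_left nhdsWithin_le_nhds

lemma tendsto_MM (hN : 1 ≤ N) (ha0 : a 0 = 1) (ha : HasDerivAt a s 0) (η : ℂ)
    (p q : Fin 3 → ℕ) :
    Tendsto (MM N ξ a η p q) (𝓝[≠] 0) (𝓝 (M0 N ξ s η p q)) := by
  have t1 : ∀ ν : ℕ, Tendsto (fun x => (fA N ξ a ν x - fA0 N ν x) / x) (𝓝[≠] 0)
      (𝓝 ((ν : ℂ) ^ 2 * s + ((ν : ℂ) + 1) * kap N ν * (ξ - 1))) := by
    intro ν
    have h := (fA_deriv (ξ := ξ) hN ha0 ha ν).sub (fA0_deriv hN ν)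
    have e : (ν : ℂ) ^ 2 * s + ((ν : ℂ) + 1) * kap N ν * (ξ - 1)
      = (ν : ℂ) ^ 2 * s + ((ν : ℂ) + 1) * kap N ν * ξ - ((ν : ℂ) + 1) * kap N ν := by ring
    rw [e]
    refine tendsto_div_of_hasDerivAt h ?_
    simp [fA_zero ha0, fA0_zero]
  have t2 : ∀ ν : ℕ, Tendsto (fun x => (η * fB N ξ a ν x - D N ν x) / x) (𝓝[≠] 0)
      (𝓝 (kap N ν * (η * ξ - 1))) := by
    intro ν
    have h := ((fB_deriv (ξ := ξ) hN ha0 ha ν).const_mul η).sub (D_deriv N ν hN).hasDerivAt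
    have e : kap N ν * (η * ξ - 1) = η * (kap N ν * ξ) - kap N ν := by ring
    rw [e]
    refine tendsto_div_of_hasDerivAt h ?_
    simp [fB_zero, D_zero]
  have t3 : ∀ ν : ℕ, Tendsto (fun x => (fB N ξ a ν x - η * D N ν x) / x) (𝓝[≠] 0)
      (𝓝 (kap N ν * (ξ - η))) := by
    intro ν
    have h := (fB_deriv (ξ := ξ) hN ha0 ha ν).sub ((D_deriv N ν hN).hasDerivAt.const_mul η)
    have e : kap N ν * (ξ - η) = kap N ν * ξ - η * kap N ν := by ring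
    rw [e]
    refine tendsto_div_of_hasDerivAt h ?_
    simp [fB_zero, D_zero]
  have t4 : ∀ ν : ℕ, Tendsto (fun x => (η * fA N ξ a ν x - η * fA0 N ν x) / x) (𝓝[≠] 0)
      (𝓝 (η * ((ν : ℂ) ^ 2 * s + ((ν : ℂ) + 1) * kap N ν * (ξ - 1)))) := by
    intro ν
    have h := (t1 ν).const_mul η
    refine h.congr ?_
    intro x
    ring
  have t5 : ∀ ν : ℕ, Tendsto (fun x => η * fC N ξ a ν x) (𝓝[≠] 0) (𝓝 η) := by
    intro ν
    simpa using (tendsto_fC (ξ := ξ) hN ha0 ha ν).const_mul η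
  refine tendsto_pi_nhds.2 fun i => tendsto_pi_nhds.2 fun j => ?_
  rcases i with i | i <;> rcases j with j | j <;> fin_cases i
  · exact tendsto_F hN (q j)
  · exact tendsto_fA0 hN (q j)
  · exact t1 (q j)
  · exact tendsto_F hN (p j)
  · exact tendsto_D hN (p j)
  · exact t2 (p j)
  · exact tendsto_fC hN ha0 ha (q j)
  · exact tendsto_D hN (q j)
  · exact t3 (q j)
  · exact t5 (p j)
  · exact tendsto_fA0 hN (p j)
  · exact t4 (p j)

lemma M0_det_ne_zero (s η : ℂ) (p q : Fin 3 → ℕ)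
    (hp : Function.Injective p) (hq : Function.Injective q) (hη : η ≠ 1)
    (hdet : η * s ^ 2 * ((∏ l, ((q l : ℂ) + 1)) * ∏ l, ((p l : ℂ) + 1)) ≠
      ((N : ℂ) * ((N : ℂ) + 1)) ^ 2 * ((η * ξ - 1) * (ξ - η))) :
    (M0 N ξ s η p q).det ≠ 0 := by
  intro h
  obtain ⟨v, hv, hv2⟩ := Matrix.exists_mulVec_eq_zero_iff.2 h
  apply hv
  have hh : ∀ i, ((M0 N ξ s η p q).mulVec v) i = 0 := fun i => by rw [hv2]; rfl
  have e1 := hh (Sum.inl 0)
  have e3 := hh (Sum.inl 1)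
  have e5 := hh (Sum.inl 2)
  have e2 := hh (Sum.inr 0)
  have e4 := hh (Sum.inr 1)
  have e6 := hh (Sum.inr 2)
  simp only [Matrix.mulVec, dotProduct, M0, Fintype.sum_sum_type, Matrix.fromBlocks_apply₁₁,
    Matrix.fromBlocks_apply₁₂, Matrix.fromBlocks_apply₂₁, Matrix.fromBlocks_apply₂₂,
    Matrix.cons_val_zero, Matrix.cons_val_one, Matrix.cons_val_two, Matrix.head_cons,
    Matrix.tail_cons, Matrix.cons_val] at e1 e2 e3 e4 e5 e6
  have := limit_kernel N ξ η s p q hp hq hη hdet (fun l => v (Sum.inr l))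
    (fun l => v (Sum.inl l))
    (by simp only [Fin.sum_univ_three] at *; linear_combination e1)
    (by simp only [Fin.sum_univ_three] at *; linear_combination e2)
    (by simp only [Fin.sum_univ_three] at *; linear_combination e3)
    (by simp only [Fin.sum_univ_three] at *; linear_combination e4)
    (by simp only [Fin.sum_univ_three] at *; linear_combination e5)
    (by simp only [Fin.sum_univ_three] at *; linear_combination e6)
  funext i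
  rcases i with i | i
  · exact congrFun this.2 i
  · exact congrFun this.1 i

/-- for small `x ≠ 0` the linear system of a residue class has only the zero solution -/
lemma class_inj (hN : 1 ≤ N) (ha0 : a 0 = 1) (ha : HasDerivAt a s 0) (η : ℂ) (p q : Fin 3 → ℕ)
    (hp : Function.Injective p) (hq : Function.Injective q) (hη : η ≠ 1)
    (hdet : η * s ^ 2 * ((∏ l, ((q l : ℂ) + 1)) * ∏ l, ((p l : ℂ) + 1)) ≠
      ((N : ℂ) * ((N : ℂ) + 1)) ^ 2 * ((η * ξ - 1) * (ξ - η))) :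
    ∀ᶠ x in 𝓝[≠] (0 : ℂ), ∀ φ ψ : Fin 3 → ℂ,
      (∑ l, ψ l * F N (q l) x + ∑ l, φ l * F N (p l) x = 0) →
      (∑ l, ψ l * fC N ξ a (q l) x + η * ∑ l, φ l * fC N ξ a (p l) x = 0) →
      (∑ l, ψ l * fA0 N (q l) x + ∑ l, φ l * D N (p l) x = 0) →
      (∑ l, ψ l * D N (q l) x + ∑ l, φ l * fA0 N (p l) x = 0) →
      (∑ l, ψ l * fA N ξ a (q l) x + η * ∑ l, φ l * fB N ξ a (p l) x = 0) →
      (∑ l, ψ l * fB N ξ a (q l) x + η * ∑ l, φ l * fA N ξ a (p l) x = 0) →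
      φ = 0 ∧ ψ = 0 := by
  have hdt : Tendsto (fun x => (MM N ξ a η p q x).det) (𝓝[≠] 0) (𝓝 (M0 N ξ s η p q).det) := by
    have hc : Continuous (fun M : Matrix (Fin 3 ⊕ Fin 3) (Fin 3 ⊕ Fin 3) ℂ => M.det) :=
      continuous_id.matrix_det
    exact (hc.tendsto _).comp (tendsto_MM hN ha0 ha η p q)
  have hne := hdt.eventually_ne (M0_det_ne_zero s η p q hp hq hη hdet)
  filter_upwards [hne, self_mem_nhdsWithin] with x hx hx0 φ ψ e1 e2 e3 e4 e5 e6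
  have hx0' : x ≠ 0 := hx0
  have hv : (MM N ξ a η p q x).mulVec (Sum.elim ψ φ) = 0 := by
    funext i
    simp only [Matrix.mulVec, dotProduct, MM, Fintype.sum_sum_type]
    rcases i with i | i <;> fin_cases i <;>
      simp only [Matrix.fromBlocks_apply₁₁, Matrix.fromBlocks_apply₁₂, Matrix.fromBlocks_apply₂₁,
        Matrix.fromBlocks_apply₂₂, Sum.elim_inl, Sum.elim_inr, Pi.zero_apply, Fin.zero_eta,
        Fin.mk_one, Fin.reduceFinMk, Matrix.cons_val_zero, Matrix.cons_val_one, Matrix.cons_val_two,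
        Matrix.head_cons, Matrix.tail_cons, Matrix.cons_val] <;>
      simp only [Fin.sum_univ_three] at * 
    · linear_combination e1
    · linear_combination e3
    · field_simp
      linear_combination e5 - e3
    · linear_combination e2
    · linear_combination e4
    · field_simp
      linear_combination e6 - η * e4
  have h0 := Matrix.eq_zero_of_mulVec_eq_zero hx hv
  constructor
  · funext l
    exact congrFun h0 (Sum.inr l)
  · funext l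
    exact congrFun h0 (Sum.inl l)

end

end Pool.Agent.H86.Waring
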