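import Mathlib

set_option autoImplicit false

/-!
# From a relation with full tangent space to a representation of `X`
-/

namespace Pool.Agent.H86.Waring

open Finset Filter Topology Polynomial

section

variable {ι : Type} [Fintype ι]

/-- the evaluation map -/
noncomputable def Phi (N : ℕ) (c : ι → Fin 3 → ℂ) (l : Fin (2 * N + 1)) : ℂ :=
  ∑ i, (c i 0 + c i 1 * (l : ℂ) + c i 2 * (l : ℂ) ^ 2) ^ N

/-- the derivative -/
noncomputable def dPhi (N : ℕ) (c : ι → Fin 3 → ℂ) : (ι → Fin 3 → ℂ) →L[ℂ] (Fin (2 * N + 1) → ℂ) :=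
  ContinuousLinearMap.pi fun l => ∑ i,
    ((N : ℂ) * (c i 0 + c i 1 * (l : ℂ) + c i 2 * (l : ℂ) ^ 2) ^ (N - 1)) •
      ((ContinuousLinearMap.proj (R := ℂ) (φ := fun _ : Fin 3 => ℂ) 0
        + (l : ℂ) • ContinuousLinearMap.proj (R := ℂ) (φ := fun _ : Fin 3 => ℂ) 1
        + ((l : ℂ) ^ 2) • ContinuousLinearMap.proj (R := ℂ) (φ := fun _ : Fin 3 => ℂ) 2).comp
        (ContinuousLinearMap.proj (R := ℂ) (φ := fun _ : ι => Fin 3 → ℂ) i))

lemma dPhi_apply (N : ℕ) (c h : ι → Fin 3 → ℂ) (l : Fin (2 * N + 1)) :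
    dPhi N c h l = ∑ i, ((N : ℂ) * (c i 0 + c i 1 * (l : ℂ) + c i 2 * (l : ℂ) ^ 2) ^ (N - 1)) *
      (h i 0 + (l : ℂ) * h i 1 + (l : ℂ) ^ 2 * h i 2) := by
  simp only [dPhi, ContinuousLinearMap.coe_pi', _root_.sum_apply,
    _root_.smul_apply, ContinuousLinearMap.comp_apply, _root_.add_apply,
    ContinuousLinearMap.proj_apply, smul_eq_mul]

lemma hasStrict (N : ℕ) (c : ι → Fin 3 → ℂ) : HasStrictFDerivAt (Phi N) (dPhi N c) c := by
  rw [hasStrictFDerivAt_pi']
  intro l
  have key : ∀ i : ι, HasStrictFDerivAt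
      (fun c : ι → Fin 3 → ℂ => (c i 0 + c i 1 * (l : ℂ) + c i 2 * (l : ℂ) ^ 2) ^ N)
      (((N : ℂ) * (c i 0 + c i 1 * (l : ℂ) + c i 2 * (l : ℂ) ^ 2) ^ (N - 1)) •
      ((ContinuousLinearMap.proj (R := ℂ) (φ := fun _ : Fin 3 => ℂ) 0
        + (l : ℂ) • ContinuousLinearMap.proj (R := ℂ) (φ := fun _ : Fin 3 => ℂ) 1
        + ((l : ℂ) ^ 2) • ContinuousLinearMap.proj (R := ℂ) (φ := fun _ : Fin 3 => ℂ) 2).comp
        (ContinuousLinearMap.proj (R := ℂ) (φ := fun _ : ι => Fin 3 → ℂ) i))) c := by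
    intro i
    have h1 : HasStrictFDerivAt
        (fun c : ι → Fin 3 → ℂ => (c i 0 + c i 1 * (l : ℂ) + c i 2 * (l : ℂ) ^ 2))
        ((ContinuousLinearMap.proj (R := ℂ) (φ := fun _ : Fin 3 => ℂ) 0
        + (l : ℂ) • ContinuousLinearMap.proj (R := ℂ) (φ := fun _ : Fin 3 => ℂ) 1
        + ((l : ℂ) ^ 2) • ContinuousLinearMap.proj (R := ℂ) (φ := fun _ : Fin 3 => ℂ) 2).comp
        (ContinuousLinearMap.proj (R := ℂ) (φ := fun _ : ι => Fin 3 → ℂ) i)) c := by
      have := (((ContinuousLinearMap.proj (R := ℂ) (φ := fun _ : Fin 3 => ℂ) 0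
        + (l : ℂ) • ContinuousLinearMap.proj (R := ℂ) (φ := fun _ : Fin 3 => ℂ) 1
        + ((l : ℂ) ^ 2) • ContinuousLinearMap.proj (R := ℂ) (φ := fun _ : Fin 3 => ℂ) 2).comp
        (ContinuousLinearMap.proj (R := ℂ) (φ := fun _ : ι => Fin 3 → ℂ) i))).hasStrictFDerivAt
          (x := c)
      refine this.congr_of_eventuallyEq (Filter.Eventually.of_forall fun c => ?_)
      simp
      ring
    have h2 := h1.pow N
    rw [nsmul_eq_mul] at h2
    exact h2
  have := HasStrictFDerivAt.fun_sum (u := (Finset.univ : Finset ι)) (fun i _ => key i)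
  exact this

/-- the quadratic polynomial with given coefficients -/
noncomputable def qd (v : Fin 3 → ℂ) : ℂ[X] := C (v 0) + C (v 1) * X + C (v 2) * X ^ 2

lemma qd_natDegree (v : Fin 3 → ℂ) : (qd v).natDegree ≤ 2 := by
  unfold qd
  compute_degree

lemma qd_eval (v : Fin 3 → ℂ) (z : ℂ) : (qd v).eval z = v 0 + v 1 * z + v 2 * z ^ 2 := by
  simp [qd]

lemma qd_coeff (p : ℂ[X]) (hp : p.natDegree ≤ 2) : qd (fun k => p.coeff k) = p := by
  have h := p.as_sum_range' 3 (by omega)
  rw [h.trans (by simp [Finset.sum_range_succ, ← C_mul_X_pow_eq_monomial] : _ = C (p.coeff 0)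
    + C (p.coeff 1) * X + C (p.coeff 2) * X ^ 2)]
  unfold qd
  simp

/-- `open_map`: a relation among `N`-th powers of quadratics whose tangent spaces span everything
can be deformed to a representation of `X`. -/
theorem open_map (N : ℕ) (hN : 1 ≤ N) (f : ι → ℂ[X]) (hdeg : ∀ i, (f i).natDegree ≤ 2)
    (hsum : ∑ i, f i ^ N = 0)
    (hspan : ∀ L : ℂ[X] →ₗ[ℂ] ℂ, (∀ i, ∀ r : ℂ[X], r.natDegree ≤ 2 → L (f i ^ (N - 1) * r) = 0) →
      ∀ m ≤ 2 * N, L (X ^ m) = 0) :
    ∃ g : ι → ℂ[X], (∀ i, (g i).natDegree ≤ 2) ∧ ∑ i, g i ^ N = X := by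
  classical
  set c0 : ι → Fin 3 → ℂ := fun i k => (f i).coeff k with hc0
  have hf : ∀ i, qd (c0 i) = f i := fun i => qd_coeff _ (hdeg i)
  have hev : ∀ (c : ι → Fin 3 → ℂ) (l : Fin (2 * N + 1)),
      Phi N c l = (∑ i, qd (c i) ^ N).eval (l : ℂ) := by
    intro c l
    simp only [Phi, eval_finsetSum, eval_pow, qd_eval]
  -- surjectivity of the derivative
  have hsurj : (dPhi N c0).range = ⊤ := by
    by_contra hne
    obtain ⟨lam, hlam, hker⟩ := Submodule.exists_le_ker_of_lt_top _ (lt_top_iff_ne_top.2 hne)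
    have hrep : ∀ g : Fin (2 * N + 1) → ℂ, lam g = ∑ l, lam (Pi.single l 1) * g l := by
      intro g
      conv_lhs => rw [← Finset.univ_sum_single g]
      rw [map_sum]
      apply Finset.sum_congr rfl
      intro l _
      have : (Pi.single l (g l) : Fin (2 * N + 1) → ℂ) = g l • Pi.single l 1 := by
        rw [← Pi.single_smul, smul_eq_mul, mul_one]
      rw [this, map_smul, smul_eq_mul, mul_comm]
    let L : ℂ[X] →ₗ[ℂ] ℂ := ∑ l : Fin (2 * N + 1), lam (Pi.single l 1) • Polynomial.leval (l : ℂ)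
    have hL : ∀ p : ℂ[X], L p = ∑ l : Fin (2 * N + 1), lam (Pi.single l 1) * p.eval (l : ℂ) := by
      intro p
      simp [L, LinearMap.sum_apply]
    have hz := hspan L (by
      intro i r hr
      have h1 : dPhi N c0 (Pi.single i (fun k => r.coeff k)) ∈ (dPhi N c0).range := ⟨_, rfl⟩
      have h2 := hker h1
      rw [LinearMap.mem_ker, hrep] at h2
      have h3 : ∀ l : Fin (2 * N + 1), dPhi N c0 (Pi.single i (fun k => r.coeff k)) l
          = (N : ℂ) * (f i ^ (N - 1) * r).eval (l : ℂ) := by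
        intro l
        rw [dPhi_apply, Finset.sum_eq_single i]
        · rw [Pi.single_eq_same, eval_mul, eval_pow, ← hf i, qd_eval]
          conv_rhs => rw [← qd_coeff r hr, qd_eval]
          simp only [Fin.val_zero, Fin.val_one, Fin.val_two]
          ring
        · intro j _ hj
          rw [Pi.single_eq_of_ne hj]
          simp
        · intro h
          exact absurd (Finset.mem_univ _) h
      have hN0 : (N : ℂ) ≠ 0 := Nat.cast_ne_zero.2 (by omega)
      rw [hL]
      have h4 : (N : ℂ) * ∑ l : Fin (2 * N + 1), lam (Pi.single l 1)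
          * (f i ^ (N - 1) * r).eval (l : ℂ) = 0 := by
        rw [← h2, Finset.mul_sum]
        apply Finset.sum_congr rfl
        intro l _
        rw [h3]
        ring
      exact (mul_eq_zero.1 h4).resolve_left hN0)
    have hv : (fun l : Fin (2 * N + 1) => lam (Pi.single l 1)) = 0 := by
      apply Matrix.eq_zero_of_forall_pow_sum_mul_pow_eq_zero (f := fun l : Fin (2 * N + 1) =>
        ((l : ℕ) : ℂ))
      · intro a b hab
        have hab' : ((a : ℕ) : ℂ) = ((b : ℕ) : ℂ) := hab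
        exact Fin.ext (by exact_mod_cast hab')
      · intro m
        have := hz m (by have := m.2; omega)
        rw [hL] at this
        simpa using this
    apply hlam
    ext l
    simpa using congrFun hv l
  have hmap := (hasStrict N c0).map_nhds_eq_of_surj hsurj
  have h0 : Phi N c0 = 0 := by
    ext l
    rw [hev]
    simp only [hf, hsum, eval_zero, Pi.zero_apply]
  have htend : Tendsto (fun (ε : ℂ) (l : Fin (2 * N + 1)) => ε * (l : ℂ)) (𝓝[≠] 0)
      (𝓝 (Phi N c0)) := by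
    rw [h0]
    apply tendsto_nhdsWithin_of_tendsto_nhds
    have hc : Continuous (fun (ε : ℂ) (l : Fin (2 * N + 1)) => ε * (l : ℂ)) := by fun_prop
    have := hc.tendsto 0
    have e : (fun l : Fin (2 * N + 1) => (0 : ℂ) * (l : ℂ)) = 0 := by
      ext l
      simp
    rwa [e] at this
  have hrange : Set.range (Phi (ι := ι) N) ∈ 𝓝 (Phi N c0) := by
    rw [← hmap]
    exact Filter.mem_map.2 (Filter.Eventually.of_forall fun c => Set.mem_range_self c)
  have hex := (htend.eventually hrange).and self_mem_nhdsWithin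
  obtain ⟨ε, ⟨c, hc⟩, hε⟩ := hex.exists
  have hε0 : ε ≠ 0 := hε
  have hpoly : ∑ i, qd (c i) ^ N = C ε * X := by
    apply Polynomial.eq_of_natDegree_lt_card_of_eval_eq _ _
      (f := fun l : Fin (2 * N + 1) => ((l : ℕ) : ℂ))
    · intro a b hab
      have hab' : ((a : ℕ) : ℂ) = ((b : ℕ) : ℂ) := hab
      exact Fin.ext (by exact_mod_cast hab')
    · intro l
      rw [← hev, hc]
      simp
    · rw [Fintype.card_fin]
      apply max_lt
      · refine lt_of_le_of_lt (Polynomial.natDegree_sum_le_of_forall_le _ _ (n := 2 * N) ?_)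
          (by omega)
        intro i _
        refine (natDegree_pow_le).trans ?_
        have := qd_natDegree (c i)
        nlinarith
      · refine lt_of_le_of_lt (natDegree_C_mul_le _ _) ?_
        rw [natDegree_X]
        omega
  obtain ⟨s, hs⟩ := IsAlgClosed.exists_pow_nat_eq (ε⁻¹) (show 0 < N by omega)
  refine ⟨fun i => C s * qd (c i), fun i => (natDegree_C_mul_le _ _).trans (qd_natDegree _), ?_⟩
  simp only [mul_pow]
  rw [← Finset.mul_sum, hpoly, ← C_pow, hs, ← mul_assoc, ← C_mul, inv_mul_cancel₀ hε0, C_1, one_mul]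

end

end Pool.Agent.H86.Waring
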