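import Pool.Agent.H86.Waring.Assemble
import Pool.Agent.H86.Waring.OpenMap

set_option autoImplicit false

/-!
# `X` is a sum of `2 ⌊N/3⌋ + 5` `N`-th powers of quadratics
-/

namespace Pool.Agent.H86.Waring

open Finset Filter Topology Polynomial

lemma Q_natDegree (a b : ℂ) : (Q a b).natDegree ≤ 2 := by
  unfold Q
  compute_degree

/-- the configuration -/
noncomputable def cfg (K : ℕ) (ax x c w ζ : ℂ) : (Fin K ⊕ Fin K) ⊕ Fin 3 → ℂ[X]
  | Sum.inl (Sum.inl j) => Q (1 * ((xi K)⁻¹) ^ (j : ℕ)) (x * xi K ^ (j : ℕ))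
  | Sum.inl (Sum.inr j) => C c * Q (ax * ((xi K)⁻¹) ^ (j : ℕ)) ((xi K * x * ax) * xi K ^ (j : ℕ))
  | Sum.inr 0 => C w * X
  | Sum.inr 1 => (1 + X) ^ 2
  | Sum.inr 2 => C ζ * (1 + X) ^ 2

lemma cfg_natDegree (K : ℕ) (ax x c w ζ : ℂ) (i) : (cfg K ax x c w ζ i).natDegree ≤ 2 := by
  rcases i with (j | j) | j
  · exact Q_natDegree _ _
  · exact (natDegree_C_mul_le _ _).trans (Q_natDegree _ _)
  · fin_cases j
    · show (C w * X).natDegree ≤ 2
      compute_degree
      norm_num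
    · show ((1 + X : ℂ[X]) ^ 2).natDegree ≤ 2
      compute_degree
    · show (C ζ * (1 + X : ℂ[X]) ^ 2).natDegree ≤ 2
      compute_degree

theorem quadratics (N : ℕ) (hN : 4 ≤ N) :
    ∃ g : Fin (2 * (N / 3) + 5) → ℂ[X], (∀ i, (g i).natDegree ≤ 2) ∧ ∑ i, g i ^ N = X := by
  set K := N / 3 + 1 with hKdef
  have hK : 2 ≤ K := by omega
  have hNK : N < 3 * K := by omega
  have hKN : 2 * K ≤ N := by omega
  have hN1 : 1 ≤ N := by omega
  obtain ⟨a, x, hg⟩ := exists_good N K hN1 hK hKN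
  set ρ := -(F N K x / fC N (xi K) a K x) with hρ
  have hρ0 : ρ ≠ 0 := neg_ne_zero.2 (div_ne_zero hg.FK hg.fCK)
  obtain ⟨c, hc⟩ := IsAlgClosed.exists_pow_nat_eq ρ (show 0 < N by omega)
  have hc0 : c ≠ 0 := by
    rintro rfl
    rw [zero_pow (by omega)] at hc
    exact hρ0 hc.symm
  set W := -((K : ℂ) * (F N 0 x + ρ * fC N (xi K) a 0 x)) with hW
  have hW0 : W ≠ 0 := by
    rw [hW]
    refine neg_ne_zero.2 (mul_ne_zero (Nat.cast_ne_zero.2 (by omega)) ?_)
    intro h
    apply hg.w0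
    have e : fC N (xi K) a K x * (F N 0 x + ρ * fC N (xi K) a 0 x)
        = fC N (xi K) a K x * F N 0 x - F N K x * fC N (xi K) a 0 x := by
      rw [hρ]
      have := hg.fCK
      field_simp
      ring
    rw [← e, h, mul_zero]
  obtain ⟨w, hw⟩ := IsAlgClosed.exists_pow_nat_eq W (show 0 < N by omega)
  have hw0 : w ≠ 0 := by
    rintro rfl
    rw [zero_pow (by omega)] at hw
    exact hW0 hw.symm
  obtain ⟨ζ, hζ⟩ := IsAlgClosed.exists_pow_nat_eq (-1 : ℂ) (show 0 < N by omega)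
  have hrel := relation (a := a) (x := x) (by omega) hNK hg ρ rfl
  obtain ⟨g, hgd, hgs⟩ := open_map N hN1 (cfg K (a x) x c w ζ) (cfg_natDegree K (a x) x c w ζ) (by
    rw [Fintype.sum_sum_type, Fintype.sum_sum_type, Fin.sum_univ_three]
    simp only [cfg, mul_pow]
    rw [← Finset.mul_sum, ← C_pow, ← C_pow, ← C_pow, hc, hw, hζ, hrel, hW]
    simp only [C_neg, C_1]
    ring) (by
    intro L hL
    apply all_zero hN1 hK hNK hKN hg L
    · intro j hj r hr
      exact hL (Sum.inl (Sum.inl ⟨j, hj⟩)) r hr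
    · intro j hj r hr
      have h := hL (Sum.inl (Sum.inr ⟨j, hj⟩)) r hr
      simp only [cfg] at h
      rw [mul_pow, ← C_pow, mul_assoc, ← smul_eq_C_mul, map_smul, smul_eq_mul] at h
      exact (mul_eq_zero.1 h).resolve_left (pow_ne_zero _ hc0)
    · have h := hL (Sum.inr 0) X (by rw [natDegree_X]; omega)
      simp only [cfg] at h
      rw [mul_pow, ← C_pow, mul_assoc, ← smul_eq_C_mul, map_smul, smul_eq_mul, ← pow_succ,
        Nat.sub_add_cancel hN1] at h
      exact (mul_eq_zero.1 h).resolve_left (pow_ne_zero _ hw0)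
    · have h := hL (Sum.inr 1) ((1 + X) ^ 2) (by compute_degree)
      simp only [cfg] at h
      rw [← pow_succ, Nat.sub_add_cancel hN1, ← pow_mul] at h
      exact h)
  have hcard : Fintype.card ((Fin K ⊕ Fin K) ⊕ Fin 3) = 2 * (N / 3) + 5 := by
    simp only [Fintype.card_sum, Fintype.card_fin]
    omega
  let e := Fintype.equivFinOfCardEq hcard
  refine ⟨fun i => g (e.symm i), fun i => hgd _, ?_⟩
  rw [← hgs]
  exact e.symm.sum_comp (fun i => g i ^ N)

/-- sums of `N`-th powers for small `N`, with a prescribed number of terms -/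
lemma small (N : ℕ) (h1 : 1 ≤ N) (h4 : N < 4) :
    ∃ g : Fin (2 * (N / 3) + 5) → ℂ[X], (∀ i, (g i).natDegree ≤ 2) ∧ ∑ i, g i ^ N = X := by
  interval_cases N
  · refine ⟨![X, 0, 0, 0, 0], ?_, ?_⟩
    · intro i
      fin_cases i <;> simp
    · simp [Fin.sum_univ_succ]
  · obtain ⟨s, hs⟩ := IsAlgClosed.exists_pow_nat_eq (-1 : ℂ) (show 0 < 2 by omega)
    refine ⟨![C (1 / 2) * (X + 1), C (s / 2) * (X - 1), 0, 0, 0], ?_, ?_⟩
    · intro i
      fin_cases i
      · show (C (1 / 2) * (X + 1) : ℂ[X]).natDegree ≤ 2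
        compute_degree
        norm_num
      · show (C (s / 2) * (X - 1) : ℂ[X]).natDegree ≤ 2
        compute_degree
        norm_num
      · simp
      · simp
      · simp
    · simp only [Nat.reduceDiv, Nat.reduceMul, Nat.reduceAdd, Fin.sum_univ_succ, Fin.sum_univ_zero]
      simp only [Matrix.cons_val_zero, Matrix.cons_val_succ, mul_pow, ← C_pow, div_pow, hs]
      simp only [ne_eq, OfNat.ofNat_ne_zero, not_false_eq_true, zero_pow, add_zero]
      have e : (C ((-1 : ℂ) / 2 ^ 2) : ℂ[X]) = - C (1 ^ 2 / 2 ^ 2) := by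
        rw [← C_neg]
        congr 1
        ring
      rw [e]
      have e2 : (C ((1 : ℂ) ^ 2 / 2 ^ 2) : ℂ[X]) * 4 = 1 := by
        have : (4 : ℂ[X]) = C 4 := (map_ofNat C 4).symm
        rw [this, ← C_mul]
        norm_num
      linear_combination X * e2
  · obtain ⟨s, hs⟩ := IsAlgClosed.exists_pow_nat_eq (1 / 6 : ℂ) (show 0 < 3 by omega)
    obtain ⟨t, ht⟩ := IsAlgClosed.exists_pow_nat_eq (-(1 / 3) : ℂ) (show 0 < 3 by omega)
    refine ⟨![C s * (X + 1), C s * (X - 1), C t * X, 0, 0, 0, 0], ?_, ?_⟩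
    · intro i
      fin_cases i
      · show (C s * (X + 1) : ℂ[X]).natDegree ≤ 2
        compute_degree
        norm_num
      · show (C s * (X - 1) : ℂ[X]).natDegree ≤ 2
        compute_degree
        norm_num
      · show (C t * X : ℂ[X]).natDegree ≤ 2
        compute_degree
        norm_num
      · simp
      · simp
      · simp
      · simp
    · simp only [Nat.reduceDiv, Nat.reduceMul, Nat.reduceAdd, Fin.sum_univ_succ, Fin.sum_univ_zero]
      simp only [Matrix.cons_val_zero, Matrix.cons_val_succ, mul_pow, ← C_pow, hs, ht]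
      simp only [ne_eq, OfNat.ofNat_ne_zero, not_false_eq_true, zero_pow, add_zero]
      have e : (C (-(1 / 3) : ℂ) : ℂ[X]) = - (2 * C (1 / 6)) := by
        have : (2 : ℂ[X]) = C 2 := (map_ofNat C 2).symm
        rw [this, ← C_mul, ← C_neg]
        congr 1
        norm_num
      rw [e]
      have e2 : (C ((1 : ℂ) / 6) : ℂ[X]) * 6 = 1 := by
        have : (6 : ℂ[X]) = C 6 := (map_ofNat C 6).symm
        rw [this, ← C_mul]
        norm_num
      linear_combination X * e2

theorem quadratics_all (N : ℕ) (hN : 1 ≤ N) :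
    ∃ g : Fin (2 * (N / 3) + 5) → ℂ[X], (∀ i, (g i).natDegree ≤ 2) ∧ ∑ i, g i ^ N = X := by
  by_cases h : N < 4
  · exact small N hN h
  · exact quadratics N (by omega)

end Pool.Agent.H86.Waring
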