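import Pool.Agent.H86.Waring.Class

set_option autoImplicit false

/-!
# The choice of the parameters
-/

namespace Pool.Agent.H86.Waring

open Finset Filter Topology

/-- the primitive `K`-th root of unity -/
noncomputable def xi (K : ℕ) : ℂ := Complex.exp (2 * Real.pi * Complex.I / K)

lemma xi_prim {K : ℕ} (hK : K ≠ 0) : IsPrimitiveRoot (xi K) K := Complex.isPrimitiveRoot_exp K hK

lemma xi_eq (K : ℕ) : xi K = Complex.exp (((2 * Real.pi / K : ℝ) : ℂ) * Complex.I) := by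
  unfold xi
  congr 1
  push_cast
  ring

lemma xi_pow_re (K r : ℕ) : (xi K ^ r).re = Real.cos (r * (2 * Real.pi / K)) := by
  rw [xi_eq, ← Complex.exp_nat_mul, ← Complex.exp_ofReal_mul_I_re]
  congr 2
  push_cast
  ring

lemma xi_re (K : ℕ) : (xi K).re = Real.cos (2 * Real.pi / K) := by
  have := xi_pow_re K 1
  simpa using this

lemma xi_conj {K : ℕ} (hK : K ≠ 0) (r : ℕ) : xi K ^ r * (starRingEnd ℂ) (xi K ^ r) = 1 := by
  have h1 : ‖xi K ^ r‖ = 1 := by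
    rw [norm_pow, (xi_prim hK).norm'_eq_one hK, one_pow]
  rw [Complex.mul_conj, Complex.normSq_eq_norm_sq, h1]
  simp

lemma cos_bound (K r : ℕ) (hK : 2 ≤ K) (hr : 0 < r) (hrK : r < K) :
    Real.cos (r * (2 * Real.pi / K)) ≤ Real.cos (2 * Real.pi / K) := by
  have hpi := Real.pi_pos
  have hK0 : (0 : ℝ) < K := by exact_mod_cast (by omega : 0 < K)
  set θ := 2 * Real.pi / K with hθ
  have hθ0 : 0 < θ := by positivity
  have hKθ : K * θ = 2 * Real.pi := by rw [hθ]; field_simp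
  have key : ∀ m : ℕ, 0 < m → m * θ ≤ Real.pi → Real.cos (m * θ) ≤ Real.cos θ := by
    intro m hm hmp
    apply Real.cos_le_cos_of_nonneg_of_le_pi hθ0.le hmp
    have : (1 : ℝ) ≤ m := by exact_mod_cast hm
    nlinarith
  rcases le_or_gt (r * θ) Real.pi with h | h
  · exact key r hr h
  · have h2 : Real.cos (r * θ) = Real.cos (((K - r : ℕ) : ℝ) * θ) := by
      rw [Nat.cast_sub hrK.le, sub_mul, hKθ, Real.cos_two_pi_sub]
    rw [h2]
    apply key (K - r) (by omega)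
    rw [Nat.cast_sub hrK.le, sub_mul, hKθ]
    linarith

lemma cos_lt (K : ℕ) (hK : 2 ≤ K) : Real.cos (2 * Real.pi / K) < 1 := by
  have hpi := Real.pi_pos
  have hK0 : (2 : ℝ) ≤ K := by exact_mod_cast hK
  rw [← Real.cos_zero]
  apply Real.cos_lt_cos_of_nonneg_of_le_pi le_rfl
  · rw [div_le_iff₀ (by linarith)]
    nlinarith
  · positivity

/-- the derivative at `0` of the implicit function -/
noncomputable def s0 (N K : ℕ) : ℂ := (kap N K - kap N (2 * K)) * (xi K - 1) / K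

noncomputable def t0 (N K : ℕ) : ℝ := (N : ℝ) * (N + 1) / ((K + 1) * (2 * K + 1))

lemma s0_eq (N K : ℕ) (hK : K ≠ 0) : s0 N K = (xi K - 1) * (t0 N K : ℂ) := by
  have h1 := succ_ne K
  have h2 : (2 * (K : ℂ) + 1) ≠ 0 := by
    have := succ_ne (2 * K)
    push_cast at this
    exact this
  have h3 : (K : ℂ) ≠ 0 := Nat.cast_ne_zero.2 hK
  have e1 : kap N K - kap N (2 * K)
      = (K : ℂ) * ((N : ℂ) * ((N : ℂ) + 1) / (((K : ℂ) + 1) * (2 * (K : ℂ) + 1))) := by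
    rw [kap_eq, kap_eq]
    push_cast
    rw [← mul_div_mul_right ((N : ℂ) * ((N : ℂ) + 1)) ((K : ℂ) + 1) h2,
      ← mul_div_mul_left ((N : ℂ) * ((N : ℂ) + 1)) (2 * (K : ℂ) + 1) h1]
    ring
  rw [s0, e1, t0]
  push_cast
  rw [mul_assoc, mul_div_assoc, mul_comm (K : ℂ), mul_div_assoc]
  field_simp

lemma hdet_ok (N K r : ℕ) (hN : 1 ≤ N) (hK : 2 ≤ K) (hr : 0 < r) (hrK : r < K) (P : ℝ)
    (hP : 0 < P) :
    xi K ^ r * s0 N K ^ 2 * (P : ℂ) ≠
      ((N : ℂ) * ((N : ℂ) + 1)) ^ 2 * ((xi K ^ r * xi K - 1) * (xi K - xi K ^ r)) := by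
  have hK0 : K ≠ 0 := by omega
  intro h
  rw [s0_eq N K hK0] at h
  have c1 := xi_conj hK0 1
  have c2 := xi_conj hK0 r
  rw [pow_one] at c1
  set ξ := xi K with hξ
  set η := ξ ^ r with hη
  set ξb := (starRingEnd ℂ) ξ with hξb
  set ηb := (starRingEnd ℂ) η with hηb
  have e1 : ξ + ξb = ((2 * ξ.re : ℝ) : ℂ) := Complex.add_conj ξ
  have e2 : η + ηb = ((2 * η.re : ℝ) : ℂ) := Complex.add_conj η
  have key : (ξ + ξb - 2) * (t0 N K : ℂ) ^ 2 * (P : ℂ)
      = ((N : ℂ) * ((N : ℂ) + 1)) ^ 2 * ((ξ + ξb) - (η + ηb)) := by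
    have l1 : η * ηb * (ξ * ξb) = 1 := by rw [c1, c2, mul_one]
    have l2 : η * ((ξ - 1) * (t0 N K : ℂ)) ^ 2 * (P : ℂ) * (ηb * ξb)
        = (ξ + ξb - 2) * (t0 N K : ℂ) ^ 2 * (P : ℂ) := by
      linear_combination ((ξ - 1) ^ 2 * (t0 N K : ℂ) ^ 2 * (P : ℂ) * ξb) * c2
        + ((ξ - 2) * (t0 N K : ℂ) ^ 2 * (P : ℂ)) * c1
    have l3 : (η * ξ - 1) * (ξ - η) * (ηb * ξb) = (ξ + ξb) - (η + ηb) := by
      linear_combination (ξ * ξ * ξb - η * ξ * ξb + ξb) * c2 + (ξ - η - ηb) * c1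
    rw [← l2, ← l3, h]
    ring
  rw [e1, e2] at key
  have key' : (2 * ξ.re - 2) * t0 N K ^ 2 * P
      = ((N : ℝ) * ((N : ℝ) + 1)) ^ 2 * (2 * ξ.re - 2 * η.re) := by
    exact_mod_cast key
  have r1 : ξ.re < 1 := by rw [hξ, xi_re]; exact cos_lt K hK
  have r2 : η.re ≤ ξ.re := by
    rw [hη, hξ, xi_pow_re, xi_re]
    exact cos_bound K r hK hr hrK
  have ht : 0 < t0 N K := by
    have : (1 : ℝ) ≤ N := by exact_mod_cast hN
    unfold t0
    positivity
  have l1 : (2 * ξ.re - 2) * t0 N K ^ 2 * P < 0 := by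
    have : 0 < t0 N K ^ 2 * P := by positivity
    nlinarith
  have l2 : 0 ≤ ((N : ℝ) * ((N : ℝ) + 1)) ^ 2 * (2 * ξ.re - 2 * η.re) := by
    apply mul_nonneg (by positivity)
    linarith
  linarith

/-- the equation defining the implicit function -/
noncomputable def Gf (N K : ℕ) (ξ : ℂ) (v : ℂ × ℂ) : ℂ :=
  F N (2 * K) v.1 * F N K (ξ * v.1 * v.2 ^ 2)
    - v.2 ^ K * (F N K v.1 * F N (2 * K) (ξ * v.1 * v.2 ^ 2))

lemma Gf_deriv (N K : ℕ) (ξ : ℂ) (hN : 1 ≤ N) :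
    HasStrictFDerivAt (Gf N K ξ)
      (((kap N K - kap N (2 * K)) * (ξ - 1)) • ContinuousLinearMap.fst ℂ ℂ ℂ
        + (-(K : ℂ)) • ContinuousLinearMap.snd ℂ ℂ ℂ) ((0 : ℂ), (1 : ℂ)) := by
  have h1 : HasStrictFDerivAt (fun v : ℂ × ℂ => v.1) (ContinuousLinearMap.fst ℂ ℂ ℂ)
      ((0 : ℂ), (1 : ℂ)) := hasStrictFDerivAt_fst
  have h2 : HasStrictFDerivAt (fun v : ℂ × ℂ => v.2) (ContinuousLinearMap.snd ℂ ℂ ℂ)
      ((0 : ℂ), (1 : ℂ)) := hasStrictFDerivAt_snd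
  have hy : HasStrictFDerivAt (fun v : ℂ × ℂ => ξ * v.1 * v.2 ^ 2)
      (ξ • ContinuousLinearMap.fst ℂ ℂ ℂ) ((0 : ℂ), (1 : ℂ)) := by
    have h := (h1.const_mul ξ).mul (h2.pow 2)
    refine HasStrictFDerivAt.congr_fderiv h ?_
    ext <;> simp
  have hF : ∀ ν : ℕ, HasStrictFDerivAt (fun v : ℂ × ℂ => F N ν v.1)
      (kap N ν • ContinuousLinearMap.fst ℂ ℂ ℂ) ((0 : ℂ), (1 : ℂ)) := by
    intro ν
    exact (F_deriv N ν hN).comp_hasStrictFDerivAt_of_eq ((0 : ℂ), (1 : ℂ)) h1 rfl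
  have hFy : ∀ ν : ℕ, HasStrictFDerivAt (fun v : ℂ × ℂ => F N ν (ξ * v.1 * v.2 ^ 2))
      (kap N ν • ξ • ContinuousLinearMap.fst ℂ ℂ ℂ) ((0 : ℂ), (1 : ℂ)) := by
    intro ν
    exact (F_deriv N ν hN).comp_hasStrictFDerivAt_of_eq ((0 : ℂ), (1 : ℂ)) hy (by simp)
  have hG := ((hF (2 * K)).mul (hFy K)).sub ((h2.pow K).mul ((hF K).mul (hFy (2 * K))))
  refine hG.congr_fderiv ?_
  ext <;> simp [F_zero] <;> ring

lemma exists_a (N K : ℕ) (hN : 1 ≤ N) (hK : K ≠ 0) :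
    ∃ a : ℂ → ℂ, a 0 = 1 ∧ HasDerivAt a (s0 N K) 0 ∧
      ∀ᶠ x in 𝓝 (0 : ℂ), F N (2 * K) x * F N K (yy (xi K) a x)
        = a x ^ K * (F N K x * F N (2 * K) (yy (xi K) a x)) := by
  have hK' : (-(K : ℂ)) ≠ 0 := neg_ne_zero.2 (Nat.cast_ne_zero.2 hK)
  obtain ⟨a, h1, h2, h3⟩ := implicit1 (Gf N K (xi K)) _ _ hK' (Gf_deriv N K (xi K) hN)
    (by simp [Gf, F_zero])
  refine ⟨a, h1, ?_, ?_⟩
  · have e : s0 N K = -((kap N K - kap N (2 * K)) * (xi K - 1)) / -(K : ℂ) := by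
      rw [s0, neg_div_neg_eq]
    rw [e]
    exact h2
  · filter_upwards [h3] with x hx
    simp only [Gf] at hx
    rw [sub_eq_zero] at hx
    exact hx

/-- the weight of the power of `z` does not vanish -/
lemma w0_ne (N K : ℕ) (hN : 1 ≤ N) (hK : 2 ≤ K) (a : ℂ → ℂ) (ha0 : a 0 = 1)
    (ha : HasDerivAt a (s0 N K) 0) :
    ∀ᶠ x in 𝓝[≠] (0 : ℂ), fC N (xi K) a K x * F N 0 x - F N K x * fC N (xi K) a 0 x ≠ 0 := by
  have h := ((fC_deriv (ξ := xi K) hN ha0 ha K).mul (F_deriv N 0 hN).hasDerivAt).sub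
    ((F_deriv N K hN).hasDerivAt.mul (fC_deriv (ξ := xi K) hN ha0 ha 0))
  have hd := tendsto_div_of_hasDerivAt h (by simp [fC_zero ha0, F_zero])
  have hne : ((K : ℂ) * s0 N K + kap N K * xi K) * F N 0 0 + fC N (xi K) a K 0 * kap N 0
      - (kap N K * fC N (xi K) a 0 0 + F N K 0 * (((0 : ℕ) : ℂ) * s0 N K + kap N 0 * xi K)) ≠ 0 := by
    have hK0 : (K : ℂ) ≠ 0 := Nat.cast_ne_zero.2 (by omega)
    have e : ((K : ℂ) * s0 N K + kap N K * xi K) * F N 0 0 + fC N (xi K) a K 0 * kap N 0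
      - (kap N K * fC N (xi K) a 0 0 + F N K 0 * (((0 : ℕ) : ℂ) * s0 N K + kap N 0 * xi K))
      = (1 - xi K) * (kap N 0 - 2 * kap N K + kap N (2 * K)) := by
      rw [fC_zero ha0, fC_zero ha0, F_zero, F_zero, s0]
      field_simp
      push_cast
      ring
    rw [e]
    apply mul_ne_zero
    · rw [sub_ne_zero]
      exact fun h1 => (xi_prim (by omega : K ≠ 0)).ne_one (by omega) h1.symm
    · have h1 := succ_ne K
      have h2 : (2 * (K : ℂ) + 1) ≠ 0 := by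
        have := succ_ne (2 * K)
        push_cast at this
        exact this
      have e2 : kap N 0 - 2 * kap N K + kap N (2 * K)
          = (N : ℂ) * ((N : ℂ) + 1) * (2 * (K : ℂ) ^ 2) / (((K : ℂ) + 1) * (2 * (K : ℂ) + 1)) := by
        rw [kap_eq, kap_eq, kap_eq]
        push_cast
        field_simp
        ring
      rw [e2]
      have h3 : (N : ℂ) ≠ 0 := Nat.cast_ne_zero.2 (by omega)
      have h4 := succ_ne N
      have h5 : (K : ℂ) ≠ 0 := Nat.cast_ne_zero.2 (by omega)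
      exact div_ne_zero (mul_ne_zero (mul_ne_zero h3 h4) (mul_ne_zero two_ne_zero (pow_ne_zero 2 h5)))
        (mul_ne_zero h1 h2)
  have h5 := hd.eventually_ne hne
  filter_upwards [h5] with x hx h0
  apply hx
  simp only [Pi.sub_apply, Pi.mul_apply]
  rw [h0, zero_div]

/-- the special class -/
lemma class0_inj (N K : ℕ) (hN : 1 ≤ N) (hK : K ≠ 0) (c1 c2 c3 c4 : ℂ) (hc : c4 ≠ 0) :
    ∀ᶠ x in 𝓝[≠] (0 : ℂ), ∀ ψ1 ψ2 φ1 φ2 : ℂ,
      (ψ1 * F N K x + ψ2 * F N (2 * K) x + φ1 * F N K x + φ2 * F N (2 * K) x = 0) →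
      (ψ1 * fA0 N K x + ψ2 * fA0 N (2 * K) x + φ1 * D N K x + φ2 * D N (2 * K) x = 0) →
      (ψ1 * D N K x + ψ2 * D N (2 * K) x + φ1 * fA0 N K x + φ2 * fA0 N (2 * K) x = 0) →
      (x ^ (2 * K) * (ψ1 * c1 + ψ2 * c2) + x ^ K * (φ1 * c3) + φ2 * c4 = 0) →
      ψ1 = 0 ∧ ψ2 = 0 ∧ φ1 = 0 ∧ φ2 = 0 := by
  let M : ℂ → Matrix (Fin 4) (Fin 4) ℂ := fun x => Matrix.of
    ![![F N K x, F N (2 * K) x, F N K x, F N (2 * K) x],
      ![fA0 N K x, fA0 N (2 * K) x, D N K x, D N (2 * K) x],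
      ![D N K x, D N (2 * K) x, fA0 N K x, fA0 N (2 * K) x],
      ![x ^ (2 * K) * c1, x ^ (2 * K) * c2, x ^ K * c3, c4]]
  let M1 : Matrix (Fin 4) (Fin 4) ℂ := Matrix.of
    ![![1, 1, 1, 1],
      ![((K : ℕ) : ℂ), ((2 * K : ℕ) : ℂ), 0, 0],
      ![0, 0, ((K : ℕ) : ℂ), ((2 * K : ℕ) : ℂ)],
      ![0, 0, 0, c4]]
  have hK0 : (K : ℂ) ≠ 0 := Nat.cast_ne_zero.2 hK
  have tp : ∀ m : ℕ, m ≠ 0 → ∀ c : ℂ, Tendsto (fun x : ℂ => x ^ m * c) (𝓝[≠] 0) (𝓝 0) := by
    intro m hm c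
    have : Tendsto (fun x : ℂ => x ^ m * c) (𝓝 0) (𝓝 ((0 : ℂ) ^ m * c)) :=
      ((continuous_pow m).mul continuous_const).tendsto 0
    rw [zero_pow hm, zero_mul] at this
    exact this.mono_left nhdsWithin_le_nhds
  have hM : Tendsto M (𝓝[≠] 0) (𝓝 M1) := by
    refine tendsto_pi_nhds.2 fun i => tendsto_pi_nhds.2 fun j => ?_
    fin_cases i <;> fin_cases j
    · exact tendsto_F hN _
    · exact tendsto_F hN _
    · exact tendsto_F hN _
    · exact tendsto_F hN _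
    · exact tendsto_fA0 hN _
    · exact tendsto_fA0 hN _
    · exact tendsto_D hN _
    · exact tendsto_D hN _
    · exact tendsto_D hN _
    · exact tendsto_D hN _
    · exact tendsto_fA0 hN _
    · exact tendsto_fA0 hN _
    · exact tp (2 * K) (by omega) c1
    · exact tp (2 * K) (by omega) c2
    · exact tp K hK c3
    · exact tendsto_const_nhds
  have hdet : M1.det ≠ 0 := by
    intro h
    obtain ⟨v, hv, hv2⟩ := Matrix.exists_mulVec_eq_zero_iff.2 h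
    apply hv
    have hh : ∀ i, (M1.mulVec v) i = 0 := fun i => by rw [hv2]; rfl
    have e0 := hh 0
    have e1 := hh 1
    have e2 := hh 2
    have e3 := hh 3
    simp only [Matrix.mulVec, dotProduct, M1, Fin.sum_univ_four, Matrix.of_apply,
      Matrix.cons_val_zero, Matrix.cons_val_one, Matrix.cons_val_two, Matrix.cons_val_three,
      Matrix.head_cons, Matrix.tail_cons, Matrix.cons_val] at e0 e1 e2 e3
    push_cast at e0 e1 e2 e3
    have v3 : v 3 = 0 := by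
      have : c4 * v 3 = 0 := by linear_combination e3
      exact (mul_eq_zero.1 this).resolve_left hc
    have v2 : v 2 = 0 := by
      have : (K : ℂ) * v 2 = 0 := by linear_combination e2 - 2 * (K : ℂ) * v3
      exact (mul_eq_zero.1 this).resolve_left hK0
    have v1 : v 1 = 0 := by
      have : (K : ℂ) * v 1 = 0 := by
        linear_combination e1 - (K : ℂ) * e0 + (K : ℂ) * v2 + (K : ℂ) * v3
      exact (mul_eq_zero.1 this).resolve_left hK0
    have v0 : v 0 = 0 := by linear_combination e0 - v1 - v2 - v3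
    funext i
    fin_cases i
    · exact v0
    · exact v1
    · exact v2
    · exact v3
  have hdt : Tendsto (fun x => (M x).det) (𝓝[≠] 0) (𝓝 M1.det) := by
    have hc : Continuous (fun M : Matrix (Fin 4) (Fin 4) ℂ => M.det) := continuous_id.matrix_det
    exact (hc.tendsto _).comp hM
  have hne := hdt.eventually_ne hdet
  filter_upwards [hne] with x hx ψ1 ψ2 φ1 φ2 e1 e2 e3 e4
  have hv : (M x).mulVec ![ψ1, ψ2, φ1, φ2] = 0 := by
    funext i
    fin_cases i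
    · simp only [Matrix.mulVec, dotProduct, M, Fin.sum_univ_four, Matrix.of_apply]
      simp
      linear_combination e1
    · simp only [Matrix.mulVec, dotProduct, M, Fin.sum_univ_four, Matrix.of_apply]
      simp
      linear_combination e2
    · simp only [Matrix.mulVec, dotProduct, M, Fin.sum_univ_four, Matrix.of_apply]
      simp
      linear_combination e3
    · simp only [Matrix.mulVec, dotProduct, M, Fin.sum_univ_four, Matrix.of_apply]
      simp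
      linear_combination e4
  have h0 := Matrix.eq_zero_of_mulVec_eq_zero hx hv
  exact ⟨congrFun h0 0, congrFun h0 1, congrFun h0 2, congrFun h0 3⟩

end Pool.Agent.H86.Waring
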